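import Mathlib

set_option autoImplicit false

/-!
# Dispersing billiards: refined systems of small arcs (helper42, MP_48f005_an)

The plane is `ℂ`.  Boundary arcs are parametrized by the angle of the unit normal which points
into the table.  All working definitions are in this file.
-/

namespace Pool.Agent.Helper42.DB

open Set Filter Topology

/-- The unit vector of angle `θ`. -/
noncomputable def ee (θ : ℝ) : ℂ := ⟨Real.cos θ, Real.sin θ⟩

/-- The unit vector `ee θ` turned by a right angle to the left. -/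
noncomputable def tt (θ : ℝ) : ℂ := ⟨-Real.sin θ, Real.cos θ⟩

/-- Scalar product. -/
def dt (z w : ℂ) : ℝ := z.re * w.re + z.im * w.im

/-- Cross product; `0 < cr v w` means that `w` points to the left of `v`. -/
def cr (z w : ℂ) : ℝ := z.re * w.im - z.im * w.re

/-- A curve parametrized by the angle of its normal, `R` is the radius of curvature
(`R = 0` gives a constant curve). -/
structure Crv where
  G : ℝ → ℂ
  R : ℝ → ℝ
  cont : Continuous R
  nonneg : ∀ u, 0 ≤ R u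
  der : ∀ u, HasDerivAt G ((R u : ℝ) • tt u) u

/-- A refined system: the table `Y` and finitely many small strictly convex arcs
`G_i ([a_i, b_i])` covering its boundary. -/
structure Sys where
  ι : Type
  fin : Fintype ι
  dec : DecidableEq ι
  Y : Set ℂ
  isOpen_Y : IsOpen Y
  bdd : Bornology.IsBounded Y
  crv : ι → Crv
  a : ι → ℝ
  b : ι → ℝ
  hab : ∀ i, a i < b i
  turn : ∀ i, b i - a i ≤ 1 / 4
  r0 : ℝ
  r1 : ℝ
  r0_pos : 0 < r0
  le_R : ∀ i u, r0 ≤ (crv i).R u
  R_le : ∀ i u, (crv i).R u ≤ r1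
  bdry : frontier Y ⊆ ⋃ i, (crv i).G '' Icc (a i) (b i)
  out : ∀ i, ∀ u ∈ Icc (a i) (b i), (crv i).G u ∉ Y
  inj : ∀ i j, ∀ u ∈ Ioo (a i) (b i), ∀ v ∈ Icc (a j) (b j),
    (crv i).G u = (crv j).G v → i = j ∧ u = v
  sep : ∀ i j, i ≠ j → ∃ η c : ℝ,
    (∀ u ∈ Ioo (a i) (b i), dt (ee η) ((crv i).G u) < c) ∧
    (∀ v ∈ Ioo (a j) (b j), c < dt (ee η) ((crv j).G v)) ∧
    (∀ u ∈ Icc (a i) (b i), ee u ≠ -ee η) ∧ (∀ v ∈ Icc (a j) (b j), ee v ≠ ee η)
  front : ∀ i, ∀ u ∈ Ioo (a i) (b i), ∃ ε > 0, ∀ z ∈ Metric.ball ((crv i).G u) ε,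
    z ∈ Y ∨ ∃ v ∈ Icc (a i) (b i), ∃ s : ℝ, 0 ≤ s ∧ z = (crv i).G v - s • ee v
  ρ : ℝ
  ρ_pos : 0 < ρ
  big : ∀ z ∉ Y, ∃ q : ℂ, Metric.closedBall q ρ ⊆ connectedComponentIn Yᶜ z
  small : ∀ i, ∀ u ∈ Icc (a i) (b i), ∀ v ∈ Icc (a i) (b i),
    dist ((crv i).G u) ((crv i).G v) ≤ ρ / 4

attribute [instance] Sys.fin Sys.dec

/-- The curve of the arc `i`. -/
abbrev Sys.g (S : Sys) (i : S.ι) : ℝ → ℂ := (S.crv i).G

/-- The small convex body spanned by the arc `i`. -/
def Sys.K (S : Sys) (i : S.ι) : Set ℂ := convexHull ℝ (S.g i '' Icc (S.a i) (S.b i))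

/-- Convexity constant. -/
noncomputable def Sys.κ (S : Sys) : ℝ := S.r0 / (4 * S.r1 ^ 2)

/-- A state just after a bounce: arc, normal angle `u` at the bounce point, angle `φ` from the
normal to the outgoing velocity. -/
@[ext] structure St (S : Sys) where
  i : S.ι
  u : ℝ
  φ : ℝ

variable {S : Sys}

/-- The bounce point. -/
def St.pos (x : St S) : ℂ := S.g x.i x.u

/-- Angle of the outgoing velocity. -/
def St.th (x : St S) : ℝ := x.u + x.φ

/-- Angle of the reversed incoming velocity. -/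
def St.bk (x : St S) : ℝ := x.u - x.φ

/-- Time reversal of a state. -/
def St.rev (x : St S) : St S := ⟨x.i, x.u, -x.φ⟩

/-- Regular state: the bounce point is in the relative interior of the arc, the velocity is not
tangent. -/
def St.Ok (x : St S) : Prop := x.u ∈ Ioo (S.a x.i) (S.b x.i) ∧ |x.φ| < Real.pi / 2

/-- A free flight from `x` to the next bounce `y` (`y` is the state after that bounce). -/
def Fl (x y : St S) : Prop :=
  x.Ok ∧ y.Ok ∧ ee x.th = -ee y.bk ∧ ∃ t : ℝ, 0 < t ∧ y.pos = x.pos + t • ee x.th ∧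
    ∀ s ∈ Ioo 0 t, x.pos + s • ee x.th ∈ S.Y

/-- `z 0, ..., z n` is a trajectory with `n` flights. -/
def Tr (n : ℕ) (z : ℕ → St S) : Prop := (∀ k ≤ n, (z k).Ok) ∧ ∀ k < n, Fl (z k) (z (k + 1))

/-- The trajectories with word `w 0, ..., w n`. -/
def Cyl (n : ℕ) (w : ℕ → S.ι) (z : ℕ → St S) : Prop := Tr n z ∧ ∀ k ≤ n, (z k).i = w k

/-- The flight from `x` to `y` is `δ`-close to a singular one. -/
def Near (δ : ℝ) (x y : St S) : Prop :=
  x.u < S.a x.i + δ ∨ S.b x.i - δ < x.u ∨ y.u < S.a y.i + δ ∨ S.b y.i - δ < y.u ∨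
  Real.pi / 2 - δ < |x.φ| ∨ Real.pi / 2 - δ < |y.φ| ∨
  ∃ l, l ≠ x.i ∧ l ≠ y.i ∧ ∃ p ∈ segment ℝ x.pos y.pos, ∃ v ∈ Icc (S.a l) (S.b l),
    dist p (S.g l v) < δ

/-- The restriction of an infinite word to the letters `0, ..., n`. -/
def res {α : Type} (n : ℕ) (w : ℕ → α) : Fin (n + 1) → α := fun j => w j

/-- Number of restrictions to `0, ..., n` of the words in a set. -/
noncomputable def cnt {α : Type} (n : ℕ) (P : (ℕ → α) → Prop) : ℕ :=
  Set.ncard (res n '' {w | P w})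

/-- Shift of a word. -/
def sh {α : Type} (s : ℕ) (w : ℕ → α) : ℕ → α := fun k => w (s + k)

variable (S)

/-- `w 0, ..., w n` is the word of some trajectory. -/
def PW (n : ℕ) (w : ℕ → S.ι) : Prop := ∃ z : ℕ → St S, Cyl n w z

/-- Number of words with `n` flights. -/
noncomputable def AW (n : ℕ) : ℕ := cnt n (PW S n)

/-- Centrally singular words: the flight number `a` of the `2a+1` flights can be made arbitrarily
close to singular. -/
def Sing (a : ℕ) (w : ℕ → S.ι) : Prop :=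
  ∀ δ : ℝ, 0 < δ → ∃ z : ℕ → St S, Cyl (2 * a + 1) w z ∧ Near δ (z a) (z (a + 1))

end Pool.Agent.Helper42.DB
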