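import Mathlib
import Pool.Agent.Helper42.DB.Defs

set_option autoImplicit false

/-!
# Elementary facts about `ee`, `tt`, `dt`, `cr`, and elementary facts on states
-/

namespace Pool.Agent.Helper42.DB

open Set Filter Topology

@[simp] lemma ee_re (θ : ℝ) : (ee θ).re = Real.cos θ := rfl
@[simp] lemma ee_im (θ : ℝ) : (ee θ).im = Real.sin θ := rfl
@[simp] lemma tt_re (θ : ℝ) : (tt θ).re = -Real.sin θ := rfl
@[simp] lemma tt_im (θ : ℝ) : (tt θ).im = Real.cos θ := rfl

lemma dt_comm (z w : ℂ) : dt z w = dt w z := by simp only [dt]; ring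
lemma cr_anti (z w : ℂ) : cr z w = -cr w z := by simp only [cr]; ring
@[simp] lemma cr_self (z : ℂ) : cr z z = 0 := by simp only [cr]; ring
lemma dt_add_right (z w v : ℂ) : dt z (w + v) = dt z w + dt z v := by
  simp only [dt, Complex.add_re, Complex.add_im]; ring
lemma dt_sub_right (z w v : ℂ) : dt z (w - v) = dt z w - dt z v := by
  simp only [dt, Complex.sub_re, Complex.sub_im]; ring
lemma dt_add_left (z w v : ℂ) : dt (z + w) v = dt z v + dt w v := by
  simp only [dt, Complex.add_re, Complex.add_im]; ring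
lemma dt_sub_left (z w v : ℂ) : dt (z - w) v = dt z v - dt w v := by
  simp only [dt, Complex.sub_re, Complex.sub_im]; ring
lemma dt_smul_right (t : ℝ) (z w : ℂ) : dt z (t • w) = t * dt z w := by
  simp only [dt, Complex.smul_re, Complex.smul_im, smul_eq_mul]; ring
lemma dt_smul_left (t : ℝ) (z w : ℂ) : dt (t • z) w = t * dt z w := by
  simp only [dt, Complex.smul_re, Complex.smul_im, smul_eq_mul]; ring
lemma dt_neg_right (z w : ℂ) : dt z (-w) = -dt z w := by
  simp only [dt, Complex.neg_re, Complex.neg_im]; ring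
lemma dt_neg_left (z w : ℂ) : dt (-z) w = -dt z w := by
  simp only [dt, Complex.neg_re, Complex.neg_im]; ring
@[simp] lemma dt_zero_right (z : ℂ) : dt z 0 = 0 := by simp [dt]
@[simp] lemma dt_zero_left (z : ℂ) : dt 0 z = 0 := by simp [dt]
lemma cr_add_right (z w v : ℂ) : cr z (w + v) = cr z w + cr z v := by
  simp only [cr, Complex.add_re, Complex.add_im]; ring
lemma cr_sub_right (z w v : ℂ) : cr z (w - v) = cr z w - cr z v := by
  simp only [cr, Complex.sub_re, Complex.sub_im]; ring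
lemma cr_add_left (z w v : ℂ) : cr (z + w) v = cr z v + cr w v := by
  simp only [cr, Complex.add_re, Complex.add_im]; ring
lemma cr_sub_left (z w v : ℂ) : cr (z - w) v = cr z v - cr w v := by
  simp only [cr, Complex.sub_re, Complex.sub_im]; ring
lemma cr_smul_right (t : ℝ) (z w : ℂ) : cr z (t • w) = t * cr z w := by
  simp only [cr, Complex.smul_re, Complex.smul_im, smul_eq_mul]; ring
lemma cr_smul_left (t : ℝ) (z w : ℂ) : cr (t • z) w = t * cr z w := by
  simp only [cr, Complex.smul_re, Complex.smul_im, smul_eq_mul]; ring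
lemma cr_neg_right (z w : ℂ) : cr z (-w) = -cr z w := by
  simp only [cr, Complex.neg_re, Complex.neg_im]; ring
lemma cr_neg_left (z w : ℂ) : cr (-z) w = -cr z w := by
  simp only [cr, Complex.neg_re, Complex.neg_im]; ring

lemma dt_ee_ee (a b : ℝ) : dt (ee a) (ee b) = Real.cos (b - a) := by
  simp only [dt, ee_re, ee_im, Real.cos_sub]; ring
lemma cr_ee_ee (a b : ℝ) : cr (ee a) (ee b) = Real.sin (b - a) := by
  simp only [cr, ee_re, ee_im, Real.sin_sub]; ring
lemma dt_ee_tt (a b : ℝ) : dt (ee a) (tt b) = -Real.sin (b - a) := by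
  simp only [dt, ee_re, ee_im, tt_re, tt_im, Real.sin_sub]; ring
lemma cr_ee_tt (a b : ℝ) : cr (ee a) (tt b) = Real.cos (b - a) := by
  simp only [cr, ee_re, ee_im, tt_re, tt_im, Real.cos_sub]; ring

lemma dt_self (z : ℂ) : dt z z = ‖z‖ ^ 2 := by
  rw [← Complex.normSq_eq_norm_sq, Complex.normSq_apply]; rfl

lemma norm_sq_eq (z : ℂ) : ‖z‖ ^ 2 = z.re ^ 2 + z.im ^ 2 := by
  rw [← dt_self]; simp only [dt]; ring

lemma dt_eq_inner (z w : ℂ) : dt z w = inner ℝ z w := by
  rw [Complex.inner]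
  simp only [dt, Complex.mul_re, Complex.conj_re, Complex.conj_im]; ring

lemma abs_dt_le (z w : ℂ) : |dt z w| ≤ ‖z‖ * ‖w‖ := by
  rw [dt_eq_inner]; exact abs_real_inner_le_norm z w

lemma dt_le (z w : ℂ) : dt z w ≤ ‖z‖ * ‖w‖ := (le_abs_self _).trans (abs_dt_le z w)

lemma abs_cr_le (z w : ℂ) : |cr z w| ≤ ‖z‖ * ‖w‖ := by
  have h : cr z w = dt (⟨-z.im, z.re⟩ : ℂ) w := by simp only [cr, dt]; ring
  have h2 : ‖(⟨-z.im, z.re⟩ : ℂ)‖ = ‖z‖ := by
    rw [← sq_eq_sq₀ (norm_nonneg _) (norm_nonneg _), norm_sq_eq, norm_sq_eq]; simp; ring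
  rw [h]; exact (abs_dt_le _ _).trans_eq (by rw [h2])

@[simp] lemma norm_ee (θ : ℝ) : ‖ee θ‖ = 1 := by
  rw [← sq_eq_sq₀ (norm_nonneg _) zero_le_one, norm_sq_eq]; simp
@[simp] lemma norm_tt (θ : ℝ) : ‖tt θ‖ = 1 := by
  rw [← sq_eq_sq₀ (norm_nonneg _) zero_le_one, norm_sq_eq]; simp

lemma ee_ne_zero (θ : ℝ) : ee θ ≠ 0 := by
  intro h; have := norm_ee θ; rw [h, norm_zero] at this; exact zero_ne_one this

lemma ee_add_pi (θ : ℝ) : ee (θ + Real.pi) = -ee θ := by
  apply Complex.ext <;> simp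

lemma tt_eq_ee (θ : ℝ) : tt θ = ee (θ + Real.pi / 2) := by
  apply Complex.ext <;> simp [Real.cos_add_pi_div_two, Real.sin_add_pi_div_two]

lemma ee_eq_ee_iff (a b : ℝ) : ee a = ee b ↔ Real.cos (a - b) = 1 := by
  constructor
  · intro h
    rw [← dt_ee_ee, h, dt_self, norm_ee]; norm_num
  · intro h
    have h1 : dt (ee a - ee b) (ee a - ee b) = 0 := by
      rw [dt_sub_left, dt_sub_right, dt_sub_right, dt_self, dt_self, norm_ee, norm_ee,
        dt_ee_ee, dt_ee_ee, h, ← neg_sub a b, Real.cos_neg, h]; norm_num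
    rw [dt_self] at h1
    have h2 : ‖ee a - ee b‖ = 0 := by simpa using h1
    exact sub_eq_zero.mp (norm_eq_zero.mp h2)

lemma continuous_ee : Continuous ee := by
  have h : ee = fun θ : ℝ => Complex.equivRealProdCLM.symm (Real.cos θ, Real.sin θ) := by
    funext θ; apply Complex.ext <;> simp
  rw [h]
  exact Complex.equivRealProdCLM.symm.continuous.comp (Real.continuous_cos.prodMk Real.continuous_sin)

lemma continuous_tt : Continuous tt := by
  have h : tt = fun θ : ℝ => Complex.equivRealProdCLM.symm (-Real.sin θ, Real.cos θ) := by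
    funext θ; apply Complex.ext <;> simp
  rw [h]
  exact Complex.equivRealProdCLM.symm.continuous.comp
    (Real.continuous_sin.neg.prodMk Real.continuous_cos)

lemma continuous_dt {X : Type*} [TopologicalSpace X] {f g : X → ℂ} (hf : Continuous f)
    (hg : Continuous g) : Continuous fun x => dt (f x) (g x) := by
  unfold dt; fun_prop

lemma continuous_cr {X : Type*} [TopologicalSpace X] {f g : X → ℂ} (hf : Continuous f)
    (hg : Continuous g) : Continuous fun x => cr (f x) (g x) := by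
  unfold cr; fun_prop

lemma Crv.continuous (c : Crv) : Continuous c.G :=
  continuous_iff_continuousAt.mpr fun u => (c.der u).continuousAt

variable {S : Sys}

@[simp] lemma St.rev_i (x : St S) : x.rev.i = x.i := rfl
@[simp] lemma St.rev_u (x : St S) : x.rev.u = x.u := rfl
@[simp] lemma St.rev_φ (x : St S) : x.rev.φ = -x.φ := rfl
@[simp] lemma St.rev_rev (x : St S) : x.rev.rev = x := by cases x; simp [St.rev]
@[simp] lemma St.rev_pos (x : St S) : x.rev.pos = x.pos := rfl
@[simp] lemma St.rev_th (x : St S) : x.rev.th = x.bk := by simp [St.th, St.bk]; ring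
@[simp] lemma St.rev_bk (x : St S) : x.rev.bk = x.th := by simp [St.th, St.bk]
lemma St.rev_Ok (x : St S) : x.rev.Ok ↔ x.Ok := by simp [St.Ok]

lemma St.Ok.cos_pos {x : St S} (h : x.Ok) : 0 < Real.cos x.φ :=
  Real.cos_pos_of_mem_Ioo ⟨by have := (abs_lt.mp h.2).1; linarith, (abs_lt.mp h.2).2⟩

/-- Time reversal of a flight. -/
lemma Fl.rev {x y : St S} (h : Fl x y) : Fl y.rev x.rev := by
  obtain ⟨hx, hy, he, t, ht, hp, hs⟩ := h
  refine ⟨(St.rev_Ok y).mpr hy, (St.rev_Ok x).mpr hx, ?_, t, ht, ?_, ?_⟩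
  · rw [St.rev_th, St.rev_bk, he, neg_neg]
  · rw [St.rev_pos, St.rev_pos, St.rev_th, hp, he]
    simp
  · intro s hs'
    have h1 := hs (t - s) ⟨by linarith [hs'.2], by linarith [hs'.1]⟩
    have h2 : y.rev.pos + s • ee y.rev.th = x.pos + (t - s) • ee x.th := by
      rw [St.rev_pos, St.rev_th, hp, he]
      simp only [smul_neg, sub_smul]
      ring
    rw [h2]; exact h1

/-- A flight determines its end. -/
lemma Fl.length {x y : St S} (h : Fl x y) : 0 < ‖y.pos - x.pos‖ ∧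
    y.pos = x.pos + ‖y.pos - x.pos‖ • ee x.th := by
  obtain ⟨_, _, _, t, ht, hp, _⟩ := h
  have h1 : y.pos - x.pos = t • ee x.th := by rw [hp]; ring
  have h2 : ‖y.pos - x.pos‖ = t := by
    rw [h1, norm_smul, norm_ee, mul_one, Real.norm_eq_abs, abs_of_pos ht]
  rw [h2]; exact ⟨ht, hp⟩

lemma Tr.shift {n s m : ℕ} {z : ℕ → St S} (h : Tr n z) (hm : s + m ≤ n) :
    Tr m (fun k => z (s + k)) :=
  ⟨fun k hk => h.1 _ (by omega), fun k hk => h.2 _ (by omega)⟩

lemma Cyl.shift {n s m : ℕ} {w : ℕ → S.ι} {z : ℕ → St S} (h : Cyl n w z) (hm : s + m ≤ n) :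
    Cyl m (sh s w) (fun k => z (s + k)) :=
  ⟨h.1.shift hm, fun k hk => h.2 _ (by omega)⟩

lemma PW.shift {n s m : ℕ} {w : ℕ → S.ι} (h : PW S n w) (hm : s + m ≤ n) :
    PW S m (sh s w) := by
  obtain ⟨z, hz⟩ := h
  exact ⟨_, hz.shift hm⟩

lemma Cyl.congr {n : ℕ} {w w' : ℕ → S.ι} {z : ℕ → St S} (h : Cyl n w z)
    (hw : ∀ k ≤ n, w k = w' k) : Cyl n w' z :=
  ⟨h.1, fun k hk => (h.2 k hk).trans (hw k hk)⟩

lemma Cyl.mono {n m : ℕ} {w : ℕ → S.ι} {z : ℕ → St S} (h : Cyl n w z) (hm : m ≤ n) :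
    Cyl m w z :=
  ⟨⟨fun k hk => h.1.1 k (by omega), fun k hk => h.1.2 k (by omega)⟩,
    fun k hk => h.2 k (by omega)⟩

/-- Time reversal of a trajectory. -/
lemma Cyl.rev {n : ℕ} {w : ℕ → S.ι} {z : ℕ → St S} (h : Cyl n w z) :
    Cyl n (fun k => w (n - k)) (fun k => (z (n - k)).rev) := by
  refine ⟨⟨fun k hk => (St.rev_Ok _).mpr (h.1.1 _ (by omega)), fun k hk => ?_⟩,
    fun k hk => by simpa using h.2 (n - k) (by omega)⟩
  have h1 := (h.1.2 (n - (k + 1)) (by omega)).rev
  have h2 : n - (k + 1) + 1 = n - k := by omega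
  rw [h2] at h1
  exact h1

end Pool.Agent.Helper42.DB
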