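import Mathlib
import Pool.Agent.Helper42.DB.Basic

set_option autoImplicit false

/-!
# Dispersing billiards (MP_48f005_an): statements of the packets, system level
-/

namespace Pool.Agent.Helper42.DB

open Set Filter Topology

variable {S : Sys}

/-- The ray from `p` with direction `ee θ` runs in `Y` until it lands transversally in the relative
interior of an arc; `y` is the state after the bounce. -/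
def Lnd (p : ℂ) (θ : ℝ) (y : St S) : Prop :=
  y.Ok ∧ ee θ = -ee y.bk ∧ ∃ t : ℝ, 0 < t ∧ y.pos = p + t • ee θ ∧
    ∀ s ∈ Ioo 0 t, p + s • ee θ ∈ S.Y

/-- `⟨dv, dq⟩` for the outgoing velocities. -/
noncomputable def Ep (x x' : St S) : ℝ := dt (ee x'.th - ee x.th) (x'.pos - x.pos)

/-- `⟨dv, dq⟩` for the incoming velocities. -/
noncomputable def Em (x x' : St S) : ℝ := dt (ee x.bk - ee x'.bk) (x'.pos - x.pos)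

/-- Distance of two bounce points. -/
noncomputable def len (x y : St S) : ℝ := ‖y.pos - x.pos‖

/-! ## Curves and flights -/

/-- CRV -/
def G_CRV : Prop := ∀ (c : Crv) (θ u v : ℝ),
  cr (ee θ) (c.G v - c.G u) = ∫ t in u..v, c.R t * Real.cos (t - θ) ∧
  dt (ee θ) (c.G v - c.G u) = -∫ t in u..v, c.R t * Real.sin (t - θ)

/-- ARC -/
def G_ARC (S : Sys) : Prop := ∀ i, 0 < S.κ ∧ 0 < S.r1 ∧
  (∀ u ∈ Icc (S.a i) (S.b i), ∀ v ∈ Icc (S.a i) (S.b i),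
    S.r0 / 2 * |u - v| ≤ ‖S.g i u - S.g i v‖ ∧ ‖S.g i u - S.g i v‖ ≤ S.r1 * |u - v|) ∧
  ∀ u ∈ Icc (S.a i) (S.b i), ∀ p ∈ S.K i, S.κ * ‖S.g i u - p‖ ^ 2 ≤ dt (ee u) (S.g i u - p)

/-- FLB -/
def G_FLB (S : Sys) : Prop :=
  (∀ x y : St S, Fl x y → x.i ≠ y.i) ∧
  (∀ (p : ℂ) (θ : ℝ) (y y' : St S), Lnd p θ y → Lnd p θ y' → y = y') ∧
  ∀ x y y' : St S, Fl x y → Fl x y' → y = y'

/-- LIFT -/
def G_LIFT (S : Sys) : Prop := ∀ i j : S.ι, i ≠ j → ∃ η c kk : ℝ, Real.cos kk = -1 ∧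
  (∀ u ∈ Ioo (S.a i) (S.b i), dt (ee η) (S.g i u) < c) ∧
  (∀ v ∈ Ioo (S.a j) (S.b j), c < dt (ee η) (S.g j v)) ∧
  (∀ u ∈ Icc (S.a i) (S.b i), |u - η| < Real.pi) ∧
  (∀ v ∈ Icc (S.a j) (S.b j), |v - η - kk| < Real.pi) ∧
  ∀ x y : St S, Fl x y → x.i = i → y.i = j → |x.th - η| < Real.pi / 2 ∧ y.bk = x.th + kk

/-- FLE -/
def G_FLE (S : Sys) : Prop := ∀ x y x' y' : St S, Fl x y → Fl x' y' →
  Em y y' = Ep x x' + (len x y + len x' y') * (1 - Real.cos (x'.th - x.th))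

/-- BNE -/
def G_BNE (S : Sys) : Prop := ∀ x x' : St S, x.i = x'.i → x.Ok → x'.Ok →
  Em x x' + 2 * S.κ * (Real.cos x.φ + Real.cos x'.φ) * ‖x'.pos - x.pos‖ ^ 2 ≤ Ep x x'

/-- UNIQ -/
def G_UNIQ (S : Sys) : Prop := ∀ (n : ℕ) (w : ℕ → S.ι) (z z' : ℕ → St S), 0 < n →
  Cyl n w z → Cyl n w z' → (z 0).u = (z' 0).u → (z n).u = (z' n).u → ∀ k ≤ n, z k = z' k

/-- PERU -/
def G_PERU (S : Sys) : Prop := ∀ (n : ℕ) (z z' : ℕ → St S), 0 < n →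
  (∀ k, Fl (z k) (z (k + 1))) → (∀ k, Fl (z' k) (z' (k + 1))) →
  (∀ k, z (k + n) = z k) → (∀ k, z' (k + n) = z' k) → (∀ k < n, (z k).i = (z' k).i) → z = z'

/-- THIN -/
def G_THIN (S : Sys) : Prop := ∀ (n : ℕ) (w : ℕ → S.ι) (z z' : ℕ → St S) (δ : ℝ) (F : Finset ℕ),
  0 < n → 0 < δ → δ < Real.pi / 2 → Cyl n w z → Cyl n w z' →
  (∀ k ∈ F, 0 < k ∧ k < n ∧ Real.sin δ ≤ Real.cos (z k).φ) →
  (len (z (n - 1)) (z n) + len (z' (n - 1)) (z' n)) *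
      (1 - Real.cos ((z' (n - 1)).th - (z (n - 1)).th)) ≤ 4 * ‖(z' n).pos - (z n).pos‖ ∨
  ((len (z (n - 1)) (z n) + len (z' (n - 1)) (z' n)) *
      (1 - Real.cos ((z' (n - 1)).th - (z (n - 1)).th))) ^ 2 * S.κ * F.card * Real.sin δ ≤
    16 * ‖(z' 0).pos - (z 0).pos‖

/-- FLEN -/
def G_FLEN (S : Sys) : Prop := ∀ δ : ℝ, 0 < δ → ∃ τ : ℝ, 0 < τ ∧ ∀ x y : St S, Fl x y →
  ((S.a x.i + δ ≤ x.u ∧ x.u ≤ S.b x.i - δ) ∨ (S.a y.i + δ ≤ y.u ∧ y.u ≤ S.b y.i - δ)) →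
  τ ≤ len x y

/-- MINI -/
def G_MINI (S : Sys) : Prop := ∀ (n : ℕ) (w : ℕ → S.ι) (z : ℕ → St S), 0 < n → Cyl n w z →
  ∀ p : ℕ → ℂ, (∀ k, 0 < k → k < n → p k ∈ S.K (w k)) →
  (∑ k ∈ Finset.range n, len (z k) (z (k + 1))) - dt (ee (z 0).th) (p 0 - (z 0).pos)
      - dt (ee (z n).bk) (p n - (z n).pos)
      + 2 * S.κ * ∑ k ∈ Finset.Ioo 0 n, Real.cos (z k).φ * ‖p k - (z k).pos‖ ^ 2
    ≤ ∑ k ∈ Finset.range n, ‖p (k + 1) - p k‖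

/-- FOPEN -/
def G_FOPEN (S : Sys) : Prop := ∀ (x y : St S) (ε : ℝ), Fl x y → 0 < ε → ∃ δ : ℝ, 0 < δ ∧
  ∀ u v : ℝ, |u - x.u| < δ → |v - y.u| < δ →
    ∃ φ ψ : ℝ, |φ - x.φ| < ε ∧ |ψ - y.φ| < ε ∧ Fl (⟨x.i, u, φ⟩ : St S) ⟨y.i, v, ψ⟩

/-- OPEN -/
def G_OPEN (S : Sys) : Prop := ∀ (n : ℕ) (w : ℕ → S.ι) (z : ℕ → St S) (ε : ℝ), 0 < n →
  Cyl n w z → 0 < ε → ∃ δ : ℝ, 0 < δ ∧ ∀ x y : ℝ, |x - (z 0).u| < δ → |y - (z n).u| < δ →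
    ∃ m : ℕ → St S, Cyl n w m ∧ (m 0).u = x ∧ (m n).u = y ∧
      ∀ k ≤ n, |(m k).u - (z k).u| < ε ∧ |(m k).φ - (z k).φ| < ε

/-- LIM -/
def G_LIM (S : Sys) : Prop := ∀ (n : ℕ) (w : ℕ → S.ι) (δ : ℝ) (m : ℕ → ℕ → St S), 0 < n → 0 < δ →
  (∀ q, Cyl n w (m q)) → (∀ q, ∀ k < n, ¬Near δ (m q k) (m q (k + 1))) →
  ∃ (z : ℕ → St S) (s : ℕ → ℕ), Cyl n w z ∧ StrictMono s ∧ ∀ k ≤ n,
    Tendsto (fun q => (m (s q) k).u) atTop (𝓝 (z k).u) ∧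
    Tendsto (fun q => (m (s q) k).φ) atTop (𝓝 (z k).φ)

/-- FULLPATH -/
def G_FULLPATH (S : Sys) : Prop := ∀ (n : ℕ) (w : ℕ → S.ι) (z : ℕ → St S) (x y : ℝ), 0 < n →
  Cyl n w z →
  (∃ m : ℕ → St S, Cyl n w m ∧ (m 0).u = x ∧ (m n).u = y) ∨
  ∃ k < n, ∀ δ : ℝ, 0 < δ → ∃ m : ℕ → St S, Cyl n w m ∧ Near δ (m k) (m (k + 1)) ∧
    (m 0).u ∈ uIcc (z 0).u x ∧ (m n).u ∈ uIcc (z n).u y

/-- CLOSE -/
def G_CLOSE (S : Sys) : Prop := ∀ δ : ℝ, 0 < δ → ∃ r : ℝ, 0 < r ∧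
  ∀ (n : ℕ) (w : ℕ → S.ι) (z m : ℕ → St S) (k : ℕ), k < n → Cyl n w z → Cyl n w m →
    |(m 0).u - (z 0).u| ≤ r → |(m n).u - (z n).u| ≤ r → ¬Near δ (z k) (z (k + 1)) →
    ¬Near (δ / 2) (m k) (m (k + 1))

/-- `t` is a good time for the word `W 0, ..., W N`. -/
def Good (S : Sys) (τ N : ℕ) (W : ℕ → S.ι) (t : ℕ) : Prop :=
  τ + 1 ≤ t ∧ t + τ + 1 ≤ N ∧
    ∀ a k : ℕ, τ ≤ a → k + 2 * a + 1 ≤ N → Sing S a (sh k W) → ¬(k ≤ t ∧ t ≤ k + 2 * a + 1)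

/-- GOODFULL -/
def G_GOODFULL (S : Sys) : Prop := ∀ τ : ℕ, ∃ δ r : ℝ, 0 < δ ∧ 0 < r ∧
  ∀ (N : ℕ) (W : ℕ → S.ι) (z : ℕ → St S), Cyl N W z →
    (∀ t, Good S τ N W t → ¬Near δ (z (t - 1)) (z t) ∧ ¬Near δ (z t) (z (t + 1))) ∧
    ∀ t t' : ℕ, Good S τ N W t → Good S τ N W t' → t < t' → ∀ x y : ℝ,
      |x - (z t).u| ≤ r → |y - (z t').u| ≤ r →
      ∃ m : ℕ → St S, Cyl (t' - t) (sh t W) m ∧ (m 0).u = x ∧ (m (t' - t)).u = y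

/-! ## Sweeping -/

/-- HMONO -/
def G_HMONO : Prop := ∀ (c : Crv) (η C ν0 ν1 θ0 θ1 : ℝ), ν0 ≤ ν1 → θ0 ≤ θ1 →
  |θ0 - ν0| ≤ Real.pi / 2 → |θ1 - ν1| ≤ Real.pi / 2 →
  |θ0 - η| < Real.pi / 2 → |θ1 - η| < Real.pi / 2 →
  (∀ ν ∈ Icc ν0 ν1, dt (ee η) (c.G ν) < C) →
  cr (ee θ0) (c.G ν0 - C • ee η) / Real.cos (θ0 - η) ≤
    cr (ee θ1) (c.G ν1 - C • ee η) / Real.cos (θ1 - η) ∧
  ((θ0 < θ1 ∨ (ν0 < ν1 ∧ (∀ ν, 0 < c.R ν) ∧ |θ0 - ν0| < Real.pi / 2 ∧ |θ1 - ν1| < Real.pi / 2)) →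
    cr (ee θ0) (c.G ν0 - C • ee η) / Real.cos (θ0 - η) <
      cr (ee θ1) (c.G ν1 - C • ee η) / Real.cos (θ1 - η))

/-- A continuous monotone pair of angles on `[p, q]`. -/
def MonoPair (p q : ℝ) (ν θ : ℝ → ℝ) : Prop :=
  ContinuousOn ν (Icc p q) ∧ ContinuousOn θ (Icc p q) ∧ MonotoneOn ν (Icc p q) ∧
    MonotoneOn θ (Icc p q)

/-- Strictness: either the direction angle is strictly monotone, or the base curve is strictly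
convex, all rays are transversal to it and the pair is injective. -/
def StrictPair (c : Crv) (p q : ℝ) (ν θ : ℝ → ℝ) : Prop :=
  StrictMonoOn θ (Icc p q) ∨ ((∀ u, 0 < c.R u) ∧ (∀ l ∈ Icc p q, |θ l - ν l| < Real.pi / 2) ∧
    ∀ l ∈ Icc p q, ∀ l' ∈ Icc p q, l < l' → ν l < ν l' ∨ θ l < θ l')

/-- LAND -/
def G_LAND (S : Sys) : Prop := ∀ (c : Crv) (j : S.ι) (p q : ℝ) (ν θ : ℝ → ℝ)
    (η C kk μ0 μ1 T0 T1 : ℝ),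
  p < q → MonoPair p q ν θ → StrictPair c p q ν θ →
  (∀ l ∈ Icc p q, |θ l - ν l| ≤ Real.pi / 2) →
  |θ p - η| < Real.pi / 2 → |θ q - η| < Real.pi / 2 → Real.cos kk = -1 →
  (∀ u ∈ Icc (ν p) (ν q), dt (ee η) (c.G u) < C) →
  (∀ v ∈ uIcc μ0 μ1, C < dt (ee η) (S.g j v)) →
  0 < T0 → 0 < T1 →
  S.g j μ0 = c.G (ν p) + T0 • ee (θ p) → S.g j μ1 = c.G (ν q) + T1 • ee (θ q) →
  |θ p + kk - μ0| < Real.pi / 2 → |θ q + kk - μ1| < Real.pi / 2 →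
  ∃ μ T : ℝ → ℝ, μ p = μ0 ∧ μ q = μ1 ∧ T p = T0 ∧ T q = T1 ∧
    ContinuousOn μ (Icc p q) ∧ ContinuousOn T (Icc p q) ∧ StrictAntiOn μ (Icc p q) ∧
    ∀ l ∈ Icc p q, 0 < T l ∧ S.g j (μ l) = c.G (ν l) + T l • ee (θ l) ∧
      |θ l + kk - μ l| < Real.pi / 2

/-- FANLAND -/
def G_FANLAND (S : Sys) : Prop := ∀ (X : ℂ) (j : S.ι) (θ0 θ1 kk μ0 μ1 T0 T1 : ℝ),
  θ0 < θ1 → θ1 - θ0 < Real.pi → Real.cos kk = -1 → μ1 < μ0 → μ0 - μ1 ≤ 1 →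
  0 < T0 → 0 < T1 → S.g j μ0 = X + T0 • ee θ0 → S.g j μ1 = X + T1 • ee θ1 →
  |θ0 + kk - μ0| < Real.pi / 2 → |θ1 + kk - μ1| < Real.pi / 2 →
  ∃ μ T : ℝ → ℝ, μ θ0 = μ0 ∧ μ θ1 = μ1 ∧ T θ0 = T0 ∧ T θ1 = T1 ∧
    ContinuousOn μ (Icc θ0 θ1) ∧ ContinuousOn T (Icc θ0 θ1) ∧ StrictAntiOn μ (Icc θ0 θ1) ∧
    ∀ θ ∈ Icc θ0 θ1, 0 < T θ ∧ S.g j (μ θ) = X + T θ • ee θ ∧ |θ + kk - μ θ| < Real.pi / 2

/-- FANORD -/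
def G_FANORD (S : Sys) : Prop := ∀ (X : ℂ) (θ0 θ1 : ℝ) (y0 y1 : St S), θ0 < θ1 → θ1 - θ0 ≤ 2 →
  Lnd X θ0 y0 → Lnd X θ1 y1 → y0.i = y1.i →
  ∃ kk : ℝ, Real.cos kk = -1 ∧ y0.bk = θ0 + kk ∧ y1.bk = θ1 + kk ∧ y1.u < y0.u

/-- Local sidedness of a family of rays. -/
def Side (p q : ℝ) (b : ℝ → ℂ) (θ : ℝ → ℝ) : Prop := ∀ l ∈ Ioo p q, ∀ t : ℝ, 0 < t → ∃ ε : ℝ,
  0 < ε ∧ (∀ l' ∈ Ioo (l - ε) l, 0 < cr (ee (θ l')) (b l + t • ee (θ l) - b l')) ∧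
  (∀ l' ∈ Ioo l (l + ε), cr (ee (θ l')) (b l + t • ee (θ l) - b l') < 0)

/-- SIDE -/
def G_SIDE : Prop := ∀ (c : Crv) (p q : ℝ) (ν θ : ℝ → ℝ), p < q → MonoPair p q ν θ →
  StrictPair c p q ν θ → (∀ l ∈ Icc p q, |θ l - ν l| ≤ Real.pi / 2) →
  Side p q (fun l => c.G (ν l)) θ

/-- The region swept by a family of segments. -/
def Swept (p q : ℝ) (b : ℝ → ℂ) (θ T : ℝ → ℝ) : Set ℂ :=
  {X | ∃ l ∈ Ioo p q, ∃ t ∈ Ioo 0 (T l), X = b l + t • ee (θ l)}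

/-- QOPEN -/
def G_QOPEN : Prop := ∀ (p q : ℝ) (b : ℝ → ℂ) (θ T : ℝ → ℝ), p < q →
  ContinuousOn b (Icc p q) → ContinuousOn θ (Icc p q) → ContinuousOn T (Icc p q) →
  Side p q b θ → IsOpen (Swept p q b θ T)

/-- CORE -/
def G_CORE (S : Sys) : Prop := ∀ (j : S.ι) (p q : ℝ) (b : ℝ → ℂ) (θ T μ : ℝ → ℝ) (kk : ℝ), p < q →
  ContinuousOn b (Icc p q) → ContinuousOn θ (Icc p q) → ContinuousOn T (Icc p q) →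
  ContinuousOn μ (Icc p q) → IsOpen (Swept p q b θ T) → Real.cos kk = -1 →
  (∀ l ∈ Icc p q, 0 < T l ∧ μ l ∈ Ioo (S.a j) (S.b j) ∧ S.g j (μ l) = b l + T l • ee (θ l) ∧
    |θ l + kk - μ l| < Real.pi / 2) →
  (∀ t ∈ Ioo 0 (T p), b p + t • ee (θ p) ∈ S.Y) → (∀ t ∈ Ioo 0 (T q), b q + t • ee (θ q) ∈ S.Y) →
  ((∀ l ∈ Icc p q, b l ∈ S.Y) ∨ ∃ (i : S.ι) (ν : ℝ → ℝ), ∀ l ∈ Icc p q,
    ν l ∈ Ioo (S.a i) (S.b i) ∧ b l = S.g i (ν l) ∧ |θ l - ν l| < Real.pi / 2) →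
  (∃ c0 : ℂ, ∀ l ∈ Icc p q, dist (b l) c0 ≤ S.ρ / 2) →
  ∀ l ∈ Icc p q, ∀ t ∈ Ioo 0 (T l), b l + t • ee (θ l) ∈ S.Y

/-- A continuous family of regular states on the arc `i`, with parameter in `[p, q]`. -/
structure Fam (i : S.ι) (p q : ℝ) (x : ℝ → St S) : Prop where
  arc : ∀ l ∈ Icc p q, (x l).i = i
  ok : ∀ l ∈ Icc p q, (x l).Ok
  cu : ContinuousOn (fun l => (x l).u) (Icc p q)
  cφ : ContinuousOn (fun l => (x l).φ) (Icc p q)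

/-- Increasing (diverging) family. -/
def IncF (p q : ℝ) (x : ℝ → St S) : Prop :=
  MonotoneOn (fun l => (x l).u) (Icc p q) ∧ MonotoneOn (fun l => (x l).th) (Icc p q) ∧
  ∀ l ∈ Icc p q, ∀ l' ∈ Icc p q, l < l' → (x l).u < (x l').u ∨ (x l).th < (x l').th

/-- Decreasing (diverging) family. -/
def DecF (p q : ℝ) (x : ℝ → St S) : Prop :=
  AntitoneOn (fun l => (x l).u) (Icc p q) ∧ AntitoneOn (fun l => (x l).th) (Icc p q) ∧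
  ∀ l ∈ Icc p q, ∀ l' ∈ Icc p q, l < l' → (x l').u < (x l).u ∨ (x l').th < (x l).th

/-- STEP -/
def G_STEP (S : Sys) : Prop := ∀ (i : S.ι) (p q : ℝ) (x : ℝ → St S) (y0 y1 : St S), p < q →
  Fam i p q x → IncF p q x → Fl (x p) y0 → Fl (x q) y1 → y0.i = y1.i →
  ∃ y : ℝ → St S, y p = y0 ∧ y q = y1 ∧ Fam y0.i p q y ∧ (∀ l ∈ Icc p q, Fl (x l) (y l)) ∧
    StrictAntiOn (fun l => (y l).u) (Icc p q) ∧ StrictAntiOn (fun l => (y l).th) (Icc p q)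

/-- STEPY -/
def G_STEPY (S : Sys) : Prop := ∀ (c : Crv) (p q : ℝ) (ν θ : ℝ → ℝ) (y0 y1 : St S) (η C kk : ℝ),
  p < q → MonoPair p q ν θ → StrictMonoOn θ (Icc p q) →
  (∀ l ∈ Icc p q, |θ l - ν l| ≤ Real.pi / 2) → (∀ l ∈ Icc p q, c.G (ν l) ∈ S.Y) →
  (∃ c0 : ℂ, ∀ l ∈ Icc p q, dist (c.G (ν l)) c0 ≤ S.ρ / 2) →
  |θ p - η| < Real.pi / 2 → |θ q - η| < Real.pi / 2 → Real.cos kk = -1 →
  (∀ u ∈ Icc (ν p) (ν q), dt (ee η) (c.G u) < C) →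
  (∀ v ∈ uIcc y0.u y1.u, C < dt (ee η) (S.g y0.i v)) →
  Lnd (c.G (ν p)) (θ p) y0 → Lnd (c.G (ν q)) (θ q) y1 → y0.i = y1.i →
  y0.bk = θ p + kk → y1.bk = θ q + kk →
  ∃ y : ℝ → St S, y p = y0 ∧ y q = y1 ∧ Fam y0.i p q y ∧
    (∀ l ∈ Icc p q, Lnd (c.G (ν l)) (θ l) (y l)) ∧
    StrictAntiOn (fun l => (y l).u) (Icc p q) ∧ StrictAntiOn (fun l => (y l).th) (Icc p q)

/-- FAN -/
def G_FAN (S : Sys) : Prop := ∀ (X : ℂ) (θ0 θ1 kk : ℝ) (y0 y1 : St S), X ∈ S.Y → θ0 < θ1 →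
  θ1 - θ0 < Real.pi → Lnd X θ0 y0 → Lnd X θ1 y1 → y0.i = y1.i → Real.cos kk = -1 →
  y0.bk = θ0 + kk → y1.bk = θ1 + kk → y1.u < y0.u →
  ∃ y : ℝ → St S, y θ0 = y0 ∧ y θ1 = y1 ∧ Fam y0.i θ0 θ1 y ∧
    (∀ θ ∈ Icc θ0 θ1, Lnd X θ (y θ)) ∧
    StrictAntiOn (fun l => (y l).u) (Icc θ0 θ1) ∧ StrictAntiOn (fun l => (y l).th) (Icc θ0 θ1)

/-- INTF -/
def G_INTF (S : Sys) : Prop := ∀ (n : ℕ) (w : ℕ → S.ι) (p q : ℝ) (x : ℝ → St S)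
    (z0 z1 : ℕ → St S), p < q → Fam (w 0) p q x → (IncF p q x ∨ DecF p q x) →
  Cyl n w z0 → Cyl n w z1 → z0 0 = x p → z1 0 = x q →
  ∃ Z : ℝ → ℕ → St S, (∀ l ∈ Icc p q, Cyl n w (Z l) ∧ Z l 0 = x l) ∧
    (∀ k ≤ n, Z p k = z0 k ∧ Z q k = z1 k) ∧
    ∀ k ≤ n, Fam (w k) p q (fun l => Z l k) ∧ (0 < k →
      (StrictMonoOn (fun l => (Z l k).u) (Icc p q) ∧ StrictMonoOn (fun l => (Z l k).th) (Icc p q)) ∨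
      (StrictAntiOn (fun l => (Z l k).u) (Icc p q) ∧ StrictAntiOn (fun l => (Z l k).th) (Icc p q)))

/-- Two trajectories with the same word are joined by a continuous family in the cylinder, with
monotone coordinates. -/
def Joined (n : ℕ) (w : ℕ → S.ι) (z z' : ℕ → St S) : Prop :=
  ∃ Z : ℝ → ℕ → St S, (∀ l ∈ Icc (0 : ℝ) 1, Cyl n w (Z l)) ∧
    (∀ k ≤ n, Z 0 k = z k ∧ Z 1 k = z' k) ∧
    ∀ k ≤ n, Fam (w k) 0 1 (fun l => Z l k) ∧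
      (MonotoneOn (fun l => (Z l k).u) (Icc 0 1) ∨ AntitoneOn (fun l => (Z l k).u) (Icc 0 1)) ∧
      (k < n →
        MonotoneOn (fun l => (Z l k).th) (Icc 0 1) ∨ AntitoneOn (fun l => (Z l k).th) (Icc 0 1))

/-- EXT -/
def G_EXT (S : Sys) : Prop := ∀ (n : ℕ) (w : ℕ → S.ι) (z z' : ℕ → St S) (m : ℕ), m ≤ n → 0 < n →
  Cyl n w z → Cyl n w z' →
  (m < n → 0 ≤ ((z' m).u - (z m).u) * ((z' m).th - (z m).th) ∧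
    ((z' m).u ≠ (z m).u ∨ (z' m).th ≠ (z m).th)) →
  (0 < m → 0 ≤ ((z' m).u - (z m).u) * ((z' m).bk - (z m).bk) ∧
    ((z' m).u ≠ (z m).u ∨ (z' m).bk ≠ (z m).bk)) →
  Joined n w z z'

/-- CROSS -/
def G_CROSS (S : Sys) : Prop := ∀ x y x' y' : St S, Fl x y → Fl x' y' → x.i = x'.i → y.i = y'.i →
  x'.u < x.u → x.th < x'.th → y'.u < y.u →
  ∃ X : ℂ, X ∈ openSegment ℝ x.pos y.pos ∧ X ∈ openSegment ℝ x'.pos y'.pos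

/-- XFAM -/
def G_XFAM (S : Sys) : Prop := ∀ (n : ℕ) (w : ℕ → S.ι) (z z' : ℕ → St S) (k : ℕ) (X : ℂ), k < n →
  Cyl n w z → Cyl n w z' → X ∈ openSegment ℝ (z k).pos (z (k + 1)).pos →
  X ∈ openSegment ℝ (z' k).pos (z' (k + 1)).pos →
  (z' k).u < (z k).u → (z k).th < (z' k).th → (z' (k + 1)).u < (z (k + 1)).u →
  Joined n w z z'

/-- CONN -/
def G_CONN (S : Sys) : Prop := ∀ (n : ℕ) (w : ℕ → S.ι) (z z' : ℕ → St S), 0 < n →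
  Cyl n w z → Cyl n w z' → Joined n w z z'

/-! ## Counting singular words -/

/-- PAIRS -/
def G_PAIRS : Prop := ∀ (F B : Type) [Fintype F] [Fintype B] (I : F → Set ℝ) (J : B → Set ℝ),
  (∀ f, (I f).OrdConnected) → (∀ b, (J b).OrdConnected) →
  (∀ f f', f ≠ f' → Disjoint (I f) (I f')) → (∀ b b', b ≠ b' → Disjoint (J b) (J b')) →
  Set.ncard {x : F × B | (I x.1 ∩ J x.2).Nonempty} ≤ Fintype.card F + Fintype.card B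

/-- FAMPAIR -/
def G_FAMPAIR (S : Sys) : Prop := ∀ (a : ℕ) (x : ℝ → St S) (Λ : Set ℝ),
  (∀ f : ℕ → S.ι, {l : ℝ | l ∈ Λ ∧ ∃ z : ℕ → St S, Cyl (a + 1) f z ∧ z 0 = x l}.OrdConnected) →
  (∀ f : ℕ → S.ι, {l : ℝ | l ∈ Λ ∧ ∃ z : ℕ → St S, Cyl a f z ∧ z 0 = (x l).rev}.OrdConnected) →
  cnt (2 * a + 1) (fun w : ℕ → S.ι => ∃ l ∈ Λ, ∃ z : ℕ → St S, Cyl (2 * a + 1) w z ∧ z a = x l) ≤
    AW S (a + 1) + AW S a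

/-- LINEPAIR -/
def G_LINEPAIR (S : Sys) : Prop := ∀ (a : ℕ) (b : ℝ → ℂ) (θ : ℝ → ℝ) (Λ : Set ℝ)
    (A1 A2 : St S → Prop),
  (∀ f : ℕ → S.ι, {l : ℝ | l ∈ Λ ∧ ∃ z : ℕ → St S, Cyl a f z ∧ Lnd (b l) (θ l) (z 0) ∧
    A1 (z 0)}.OrdConnected) →
  (∀ f : ℕ → S.ι, {l : ℝ | l ∈ Λ ∧ ∃ z : ℕ → St S, Cyl a f z ∧ Lnd (b l) (θ l + Real.pi) (z 0) ∧
    A2 (z 0)}.OrdConnected) →
  cnt (2 * a + 1) (fun w : ℕ → S.ι => ∃ l ∈ Λ, ∃ z : ℕ → St S, Cyl (2 * a + 1) w z ∧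
    b l ∈ openSegment ℝ (z a).pos (z (a + 1)).pos ∧ ee (z a).th = ee (θ l) ∧
    A1 (z (a + 1)) ∧ A2 (z a).rev) ≤ 2 * AW S a

/-- REVCNT -/
def G_REVCNT : Prop := ∀ (α : Type) [Fintype α] (n : ℕ) (P : (ℕ → α) → Prop),
  (∀ w w' : ℕ → α, (∀ k ≤ n, w k = w' k) → P w → P w') →
  cnt n (fun w => P (fun k => w (n - k))) = cnt n P

/-- CE -/
def G_CE (S : Sys) : Prop := ∀ (a : ℕ) (i : S.ι) (u0 : ℝ), u0 ∈ Ioo (S.a i) (S.b i) →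
  cnt (2 * a + 1) (fun w : ℕ → S.ι => w a = i ∧ ∃ z : ℕ → St S, Cyl (2 * a + 1) w z ∧
    (z a).u = u0) ≤ AW S (a + 1) + AW S a

/-- CG -/
def G_CG (S : Sys) : Prop := ∀ (a : ℕ) (i : S.ι) (φ0 : ℝ), |φ0| < Real.pi / 2 →
  cnt (2 * a + 1) (fun w : ℕ → S.ι => w a = i ∧ ∃ z : ℕ → St S, Cyl (2 * a + 1) w z ∧
    (z a).φ = φ0) ≤ AW S (a + 1) + AW S a

/-- CMC -/
def G_CMC (S : Sys) : Prop := ∀ (a : ℕ) (X : ℂ),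
  cnt (2 * a + 1) (fun w : ℕ → S.ι => ∃ z : ℕ → St S, Cyl (2 * a + 1) w z ∧
    X ∈ openSegment ℝ (z a).pos (z (a + 1)).pos) ≤ 8 * AW S a

/-- The central flight of `z` passes the point at distance `r` in front of the point `u` of the arc
`l`, in the tangent direction, and its ends are at distance `η` from the ends of their arcs. -/
def TanPass (a : ℕ) (l : S.ι) (σ η r : ℝ) (z : ℕ → St S) : Prop :=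
  ∃ u ∈ Icc (S.a l + η) (S.b l - η),
    S.g l u + r • ee u ∈ openSegment ℝ (z a).pos (z (a + 1)).pos ∧
    ee (z a).th = ee (u + σ * (Real.pi / 2)) ∧
    (z a).u ∈ Icc (S.a (z a).i + η) (S.b (z a).i - η) ∧
    (z (a + 1)).u ∈ Icc (S.a (z (a + 1)).i + η) (S.b (z (a + 1)).i - η)

/-- CMT -/
def G_CMT (S : Sys) : Prop := ∀ (l : S.ι) (σ η : ℝ), (σ = 1 ∨ σ = -1) → 0 < η → ∃ r1 : ℝ, 0 < r1 ∧
  ∀ r ∈ Ioo 0 r1, ∀ a : ℕ, cnt (2 * a + 1) (fun w : ℕ → S.ι => w a ≠ l ∧ w (a + 1) ≠ l ∧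
    ∃ z : ℕ → St S, Cyl (2 * a + 1) w z ∧ TanPass a l σ η r z) ≤ 2 * AW S a

/-- Limit data of a near-miss of the point `v` of the arc `l`. -/
def LimM (a : ℕ) (w : ℕ → S.ι) (l : S.ι) (v : ℝ) : Prop :=
  ∃ (m : ℕ → ℕ → St S) (u0 u1 φ0 φ1 : ℝ), (∀ q, Cyl (2 * a + 1) w (m q)) ∧
    u0 ∈ Ioo (S.a (w a)) (S.b (w a)) ∧ u1 ∈ Ioo (S.a (w (a + 1))) (S.b (w (a + 1))) ∧
    |φ0| < Real.pi / 2 ∧ |φ1| < Real.pi / 2 ∧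
    Tendsto (fun q => (m q a).u) atTop (𝓝 u0) ∧ Tendsto (fun q => (m q a).φ) atTop (𝓝 φ0) ∧
    Tendsto (fun q => (m q (a + 1)).u) atTop (𝓝 u1) ∧
    Tendsto (fun q => (m q (a + 1)).φ) atTop (𝓝 φ1) ∧
    S.g l v ∈ segment ℝ (S.g (w a) u0) (S.g (w (a + 1)) u1)

/-- CLASS -/
def G_CLASS (S : Sys) : Prop := ∀ (a : ℕ) (w : ℕ → S.ι), Sing S a w →
  (∀ δ : ℝ, 0 < δ → ∃ z : ℕ → St S, Cyl (2 * a + 1) w z ∧ (z a).u < S.a (w a) + δ) ∨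
  (∀ δ : ℝ, 0 < δ → ∃ z : ℕ → St S, Cyl (2 * a + 1) w z ∧ S.b (w a) - δ < (z a).u) ∨
  (∀ δ : ℝ, 0 < δ → ∃ z : ℕ → St S, Cyl (2 * a + 1) w z ∧
    (z (a + 1)).u < S.a (w (a + 1)) + δ) ∨
  (∀ δ : ℝ, 0 < δ → ∃ z : ℕ → St S, Cyl (2 * a + 1) w z ∧
    S.b (w (a + 1)) - δ < (z (a + 1)).u) ∨
  (∀ δ : ℝ, 0 < δ → ∃ z : ℕ → St S, Cyl (2 * a + 1) w z ∧ Real.pi / 2 - δ < (z a).φ) ∨
  (∀ δ : ℝ, 0 < δ → ∃ z : ℕ → St S, Cyl (2 * a + 1) w z ∧ (z a).φ < -(Real.pi / 2 - δ)) ∨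
  (∀ δ : ℝ, 0 < δ → ∃ z : ℕ → St S, Cyl (2 * a + 1) w z ∧ Real.pi / 2 - δ < (z (a + 1)).φ) ∨
  (∀ δ : ℝ, 0 < δ → ∃ z : ℕ → St S, Cyl (2 * a + 1) w z ∧ (z (a + 1)).φ < -(Real.pi / 2 - δ)) ∨
  ∃ l : S.ι, w a ≠ l ∧ w (a + 1) ≠ l ∧ ∃ v ∈ Icc (S.a l) (S.b l), LimM a w l v

/-- MTM -/
def G_MTM (S : Sys) : Prop := ∀ (a : ℕ) (w : ℕ → S.ι) (l : S.ι) (v : ℝ), w a ≠ l →
  w (a + 1) ≠ l → v ∈ Ioo (S.a l) (S.b l) → LimM a w l v →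
  ∃ σ η r1 : ℝ, (σ = 1 ∨ σ = -1) ∧ 0 < η ∧ 0 < r1 ∧ ∀ r ∈ Ioo 0 r1,
    ∃ z : ℕ → St S, Cyl (2 * a + 1) w z ∧ TanPass a l σ η r z

/-- MCM -/
def G_MCM (S : Sys) : Prop := ∀ (a : ℕ) (w : ℕ → S.ι) (l : S.ι) (v : ℝ), w a ≠ l →
  w (a + 1) ≠ l → (v = S.a l ∨ v = S.b l) → LimM a w l v →
  ∃ (k : ℕ) (t1 : ℝ), k < 8 ∧ 0 < t1 ∧ ∀ t ∈ Ioo 0 t1, ∃ z : ℕ → St S, Cyl (2 * a + 1) w z ∧
    S.g l v + t • ee (k * (Real.pi / 4)) ∈ openSegment ℝ (z a).pos (z (a + 1)).pos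

/-- COUNT -/
def G_COUNT (S : Sys) : Prop := ∃ C : ℝ, ∀ a : ℕ,
  (cnt (2 * a + 1) (Sing S a) : ℝ) ≤ C * (AW S a + AW S (a + 1))

/-! ## Gluing -/

/-- A word of a loop which can be glued at the arc `i`, near the state `(uc, φc)`. -/
structure Lp (S : Sys) (i : S.ι) (uc φc r ω : ℝ) (ℓ : ℕ) (w : ℕ → S.ι) : Prop where
  pos : 0 < ℓ
  w0 : w 0 = i
  wl : w ℓ = i
  full : ∀ x ∈ Icc (uc - r) (uc + r), ∀ y ∈ Icc (uc - r) (uc + r), ∃ m : ℕ → St S,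
    Cyl ℓ w m ∧ (m 0).u = x ∧ (m ℓ).u = y
  dirL : ∀ m : ℕ → St S, Cyl ℓ w m → (m 0).u ∈ Icc (uc - r) (uc + r) → (m ℓ).u = uc →
    ‖ee (m ℓ).bk - ee (uc - φc)‖ ≤ ω
  dirR : ∀ m : ℕ → St S, Cyl ℓ w m → (m 0).u = uc → (m ℓ).u ∈ Icc (uc - r) (uc + r) →
    ‖ee (m 0).th - ee (uc + φc)‖ ≤ ω

/-- GLUE -/
def G_GLUE (S : Sys) : Prop := ∀ (i : S.ι) (uc φc r ω : ℝ) (ℓ m : ℕ) (w : ℕ → ℕ → S.ι), 2 ≤ m →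
  0 < r → |φc| < Real.pi / 2 → Icc (uc - r) (uc + r) ⊆ Ioo (S.a i) (S.b i) →
  0 ≤ ω → ω < Real.cos φc * S.κ * S.r0 * r / 2 → (∀ j < m, Lp S i uc φc r ω ℓ (w j)) →
  ∃ z : ℕ → St S, (∀ k, Fl (z k) (z (k + 1))) ∧ (∀ k, z (k + m * ℓ) = z k) ∧
    ∀ j < m, ∀ k ≤ ℓ, (z (j * ℓ + k)).i = w j k

/-- LOOPLP -/
def G_LOOPLP (S : Sys) : Prop := ∀ τ : ℕ, ∃ (r ξ : ℝ) (M : ℕ), 0 < r ∧ 0 < ξ ∧
  ∀ (N : ℕ) (W : ℕ → S.ι) (z : ℕ → St S) (t ℓ : ℕ) (i : S.ι) (uc φc : ℝ), Cyl N W z →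
    Good S τ N W t → Good S τ N W (t + ℓ) → (z t).i = i → (z (t + ℓ)).i = i →
    |(z t).u - uc| ≤ ξ → |(z t).φ - φc| ≤ ξ → |(z (t + ℓ)).u - uc| ≤ ξ →
    |(z (t + ℓ)).φ - φc| ≤ ξ →
    M ≤ Set.ncard {s : ℕ | t < s ∧ s < t + ℓ ∧ Good S τ N W s} → 0 < ℓ →
    |φc| < Real.pi / 2 ∧ Icc (uc - r) (uc + r) ⊆ Ioo (S.a i) (S.b i) ∧
    Lp S i uc φc r (Real.cos φc * S.κ * S.r0 * r / 4) ℓ (sh t W)

/-! ## Combinatorics of words -/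

/-- A factorial language over a finite alphabet; `P n w` says that `w 0, ..., w n` is a word. -/
structure Lang (α : Type) where
  P : ℕ → (ℕ → α) → Prop
  loc : ∀ n w w', (∀ k ≤ n, w k = w' k) → P n w → P n w'
  sub : ∀ n s m w, s + m ≤ n → P n w → P m (sh s w)

/-- Number of words with `n` steps. -/
noncomputable def Lang.A {α : Type} (L : Lang α) (n : ℕ) : ℕ := cnt n (L.P n)

/-- The exponential growth rate of the language is `h`. -/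
def Lang.Rate {α : Type} (L : Lang α) (h : ℝ) : Prop :=
  (∀ n : ℕ, Real.exp (h * n) ≤ L.A n) ∧
  ∀ ζ : ℝ, 0 < ζ → ∃ K : ℝ, 1 ≤ K ∧ ∀ n : ℕ, (L.A n : ℝ) ≤ K * Real.exp ((h + ζ) * n)

/-- SUBM -/
def G_SUBM : Prop := ∀ (α : Type) [Fintype α] (L : Lang α), ∀ m n : ℕ,
  L.A (m + n) ≤ L.A m * L.A n

/-- FEK -/
def G_FEK : Prop := ∀ (α : Type) [Fintype α] (L : Lang α), (∀ n, 0 < L.A n) →
  ∃ h : ℝ, 0 ≤ h ∧ L.Rate h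

/-- Words with disjoint windows of total length `L`; `Sg a w` says that `w 0, ..., w (2a+1)` is a
singular window. -/
inductive Win {α : Type} (P : ℕ → (ℕ → α) → Prop) (Sg : ℕ → (ℕ → α) → Prop) (τ : ℕ) :
    ℕ → ℕ → (ℕ → α) → Prop
  | nil (N : ℕ) (w : ℕ → α) : P N w → Win P Sg τ N 0 w
  | cons (g a N L : ℕ) (w : ℕ → α) : P g w → τ ≤ a → Sg a (sh g w) →
      Win P Sg τ N L (sh (g + (2 * a + 1)) w) →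
      Win P Sg τ (g + (2 * a + 1) + N) (2 * a + 1 + L) w

/-- DB -/
def G_DB : Prop := ∀ (α : Type) [Fintype α] (L : Lang α) (Sg : ℕ → (ℕ → α) → Prop) (h C : ℝ),
  0 ≤ h → L.Rate h →
  (∀ a w w', (∀ k ≤ 2 * a + 1, w k = w' k) → Sg a w → Sg a w') →
  (∀ a : ℕ, (cnt (2 * a + 1) (Sg a) : ℝ) ≤ C * (L.A a + L.A (a + 1))) →
  ∀ ζ : ℝ, 0 < ζ → ∃ (τ : ℕ) (K : ℝ), ∀ N M : ℕ,
    (cnt N (Win L.P Sg τ N M) : ℝ) ≤ K * Real.exp ((h + 2 * ζ) * N - h / 4 * M)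

/-- Number of times covered by long singular windows. -/
noncomputable def badc {α : Type} (Sg : ℕ → (ℕ → α) → Prop) (τ N : ℕ) (W : ℕ → α) : ℕ :=
  Set.ncard {t : ℕ | ∃ a k : ℕ, τ ≤ a ∧ k + 2 * a + 1 ≤ N ∧ Sg a (sh k W) ∧
    k ≤ t ∧ t ≤ k + 2 * a + 1}

/-- VIT -/
def G_VIT : Prop := ∀ (α : Type) (L : Lang α) (Sg : ℕ → (ℕ → α) → Prop) (τ N : ℕ) (W : ℕ → α),
  (∀ a w w', (∀ k ≤ 2 * a + 1, w k = w' k) → Sg a w → Sg a w') →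
  L.P N W → ∃ M : ℕ, badc Sg τ N W ≤ 6 * M ∧ M ≤ N ∧ Win L.P Sg τ N M W

/-- TYP -/
def G_TYP : Prop := ∀ (α : Type) [Fintype α] (L : Lang α) (Sg : ℕ → (ℕ → α) → Prop) (h C : ℝ),
  0 < h → L.Rate h →
  (∀ a w w', (∀ k ≤ 2 * a + 1, w k = w' k) → Sg a w → Sg a w') →
  (∀ a : ℕ, (cnt (2 * a + 1) (Sg a) : ℝ) ≤ C * (L.A a + L.A (a + 1))) →
  ∃ τ N0 : ℕ, ∀ N ≥ N0,
    L.A N ≤ 2 * cnt N (fun W => L.P N W ∧ 10 * badc Sg τ N W ≤ N)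

/-- PIG -/
def G_PIG : Prop := ∀ (α : Type) [Fintype α] (L : Lang α) (h : ℝ) (Q : ℕ)
    (good : ℕ → (ℕ → α) → Finset ℕ) (cls : ℕ → (ℕ → α) → ℕ → Fin Q),
  0 < h → L.Rate h → (∀ N W, ∀ t ∈ good N W, t ≤ N) →
  (∃ N0 : ℕ, ∀ N ≥ N0, L.A N ≤ 2 * cnt N (fun W => L.P N W ∧ 7 * N ≤ 8 * (good N W).card)) →
  ∀ ε : ℝ, 0 < ε → ∀ M ℓ0 : ℕ, ∃ ℓ ≥ ℓ0, ∃ c : Fin Q, Real.exp ((h - ε) * ℓ) ≤
    cnt ℓ (fun v : ℕ → α => ∃ (N : ℕ) (W : ℕ → α) (t : ℕ), L.P N W ∧ t ∈ good N W ∧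
      t + ℓ ∈ good N W ∧ cls N W t = c ∧ cls N W (t + ℓ) = c ∧
      (∃ F : Finset ℕ, F ⊆ good N W ∧ M ≤ F.card ∧ ∀ s ∈ F, t < s ∧ s < t + ℓ) ∧
      ∀ k ≤ ℓ, v k = W (t + k))

/-! ## Periodic orbits of a system -/

/-- `O` is a periodic orbit. -/
def POrb (S : Sys) (O : Set (St S)) : Prop := ∃ (z : ℕ → St S) (p : ℕ), 0 < p ∧
  (∀ k, Fl (z k) (z (k + 1))) ∧ (∀ k, z (k + p) = z k) ∧ O = range z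

/-- Number of periodic orbits of period at most `n`. -/
noncomputable def fS (S : Sys) (n : ℕ) : ℕ := Set.ncard {O : Set (St S) | POrb S O ∧ O.ncard ≤ n}

/-- UPB -/
def G_UPB (S : Sys) : Prop := ∀ n : ℕ, {O : Set (St S) | POrb S O ∧ O.ncard ≤ n}.Finite ∧
  fS S n ≤ ∑ k ∈ Finset.range (n + 1), AW S k

/-- LOW -/
def G_LOW (S : Sys) : Prop := ∀ (i : S.ι) (uc φc r ω : ℝ) (ℓ m : ℕ), 2 ≤ m →
  0 < r → |φc| < Real.pi / 2 → Icc (uc - r) (uc + r) ⊆ Ioo (S.a i) (S.b i) →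
  0 ≤ ω → ω < Real.cos φc * S.κ * S.r0 * r / 2 →
  (cnt ℓ (Lp S i uc φc r ω ℓ)) ^ m ≤ m * ℓ * fS S (m * ℓ)

/-- MAIN -/
def G_MAIN (S : Sys) : Prop := ∃ h : ℝ, 0 ≤ h ∧
  Tendsto (fun n : ℕ => Real.log (fS S n) / n) atTop (𝓝 h)

end Pool.Agent.Helper42.DB
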