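import Mathlib
import Pool.Agent.Helper42.DB.Goals

set_option autoImplicit false

/-!
# Dispersing billiards (MP_48f005_an): auxiliary statements of packets
-/

namespace Pool.Agent.Helper42.DB

open Set Filter Topology

/-- VARSUPP -/
def G_VARSUPP (S : Sys) : Prop := ∀ (i : S.ι) (p A B : ℂ) (α φ : ℝ), p ∈ S.K i → p ≠ A → p ≠ B →
  (∀ q ∈ S.K i, ‖p - A‖ + ‖B - p‖ ≤ ‖q - A‖ + ‖B - q‖) →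
  α ∈ Icc (S.a i) (S.b i) → 0 < Real.cos φ →
  B - p = ‖B - p‖ • ee (α + φ) → A - p = ‖A - p‖ • ee (α - φ) → p = S.g i α

/-- GLUEA -/
def G_GLUEA (S : Sys) : Prop := ∀ (i : S.ι) (uc φc r ω : ℝ) (m : ℕ) (Λ α β : ℕ → ℝ → ℝ → ℝ),
  2 ≤ m → 0 < r → |φc| < Real.pi / 2 → Icc (uc - r) (uc + r) ⊆ Ioo (S.a i) (S.b i) →
  0 ≤ ω → ω < Real.cos φc * S.κ * S.r0 * r / 2 →
  (∀ j < m, ∀ x ∈ Icc (uc - r) (uc + r), ∀ y ∈ Icc (uc - r) (uc + r),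
    |α j x y| < Real.pi / 2 ∧ |β j x y| < Real.pi / 2) →
  (∀ j < m, ∀ x ∈ Icc (uc - r) (uc + r), ∀ y ∈ Icc (uc - r) (uc + r),
    ∀ x' ∈ Icc (uc - r) (uc + r), ∀ y' ∈ Icc (uc - r) (uc + r),
    Λ j x y - dt (ee (x + α j x y)) (S.g i x' - S.g i x)
      - dt (ee (y - β j x y)) (S.g i y' - S.g i y) ≤ Λ j x' y') →
  (∀ j < m, ∀ x ∈ Icc (uc - r) (uc + r), ∀ y ∈ Icc (uc - r) (uc + r),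
    ∃ P : ℂ, P ≠ S.g i x ∧ P = S.g i x + ‖P - S.g i x‖ • ee (x + α j x y) ∧
      ∀ x' ∈ Icc (uc - r) (uc + r), Λ j x' y ≤ Λ j x y + ‖P - S.g i x'‖ - ‖P - S.g i x‖) →
  (∀ j < m, ∀ x ∈ Icc (uc - r) (uc + r), ∀ y ∈ Icc (uc - r) (uc + r),
    ∃ P : ℂ, P ≠ S.g i y ∧ P = S.g i y + ‖P - S.g i y‖ • ee (y - β j x y) ∧
      ∀ y' ∈ Icc (uc - r) (uc + r), Λ j x y' ≤ Λ j x y + ‖P - S.g i y'‖ - ‖P - S.g i y‖) →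
  (∀ j < m, ∀ x ∈ Icc (uc - r) (uc + r), ‖ee (uc - β j x uc) - ee (uc - φc)‖ ≤ ω) →
  (∀ j < m, ∀ y ∈ Icc (uc - r) (uc + r), ‖ee (uc + α j uc y) - ee (uc + φc)‖ ≤ ω) →
  ∃ x : ℕ → ℝ, (∀ j < m, x j ∈ Icc (uc - r) (uc + r)) ∧
    ∀ j < m, β j (x j) (x ((j + 1) % m)) =
      α ((j + 1) % m) (x ((j + 1) % m)) (x ((j + 2) % m))

/-- CAT -/
def G_CAT : Prop := ∀ (α : Type) [Fintype α] (m n : ℕ) (P1 P2 : (ℕ → α) → Prop),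
  cnt (m + n) (fun w => P1 w ∧ P2 (sh m w)) ≤ cnt m P1 * cnt n P2

/-- CUP -/
def G_CUP : Prop := ∀ (α β : Type) [Fintype α] (n : ℕ) (s : Finset β) (P : β → (ℕ → α) → Prop)
  (R : (ℕ → α) → Prop), (∀ w, R w → ∃ x ∈ s, P x w) → cnt n R ≤ ∑ x ∈ s, cnt n (P x)

/-- Words decomposed into `q` rich loops and gaps; `R` is the total length of the rich loops. -/
inductive Dec {α : Type} (P : ℕ → (ℕ → α) → Prop) (Rh : ℕ → (ℕ → α) → Prop) :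
    ℕ → ℕ → ℕ → (ℕ → α) → Prop
  | nil (N : ℕ) (w : ℕ → α) : P N w → Dec P Rh 0 N 0 w
  | cons (q g ℓ N R : ℕ) (w : ℕ → α) : P g w → Rh ℓ (sh g w) →
      Dec P Rh q N R (sh (g + ℓ) w) → Dec P Rh (q + 1) (g + ℓ + N) (ℓ + R) w

/-- DECCNT -/
def G_DECCNT : Prop := ∀ (α : Type) [Fintype α] (L : Lang α) (Rh : ℕ → (ℕ → α) → Prop)
    (h ζ ε K Q : ℝ), 0 ≤ h + ζ → 1 ≤ K → 1 ≤ Q →
  (∀ n : ℕ, (L.A n : ℝ) ≤ K * Real.exp ((h + ζ) * n)) →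
  (∀ ℓ : ℕ, (cnt ℓ (Rh ℓ) : ℝ) ≤ Q * Real.exp ((h - ε) * ℓ)) →
  ∀ q N R : ℕ, (cnt N (Dec L.P Rh q N R) : ℝ) ≤
    (((N : ℝ) + 1) ^ 2) ^ q * K ^ (q + 1) * Q ^ q * Real.exp ((h + ζ) * (N - R) + (h - ε) * R)

/-- DECEX -/
def G_DECEX : Prop := ∀ (α : Type) (L : Lang α) (Rh : ℕ → (ℕ → α) → Prop) (N : ℕ) (W : ℕ → α)
    (C k : ℕ) (cls : ℕ → ℕ) (G : Finset ℕ) (s : ℕ), L.P N W → s ≤ N → (∀ t ∈ G, s ≤ t ∧ t ≤ N) →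
  (G.image cls).card ≤ k →
  (∀ t ∈ G, ∀ t' ∈ G, t ≤ t' → cls t = cls t' →
    Rh (t' - t) (sh t W) ∨ (G.filter (fun x => t ≤ x ∧ x ≤ t')).card ≤ C) →
  ∃ q R : ℕ, q ≤ k ∧ s + R ≤ N ∧ G.card ≤ R + k * (C + 1) ∧ Dec L.P Rh q (N - s) R (sh s W)

/-- VIT1: intervals of integers `[x.1, x.1 + x.2]`. -/
def G_VIT1 : Prop := ∀ I : Finset (ℕ × ℕ), ∃ J ⊆ I,
  (∀ x ∈ J, ∀ y ∈ J, x ≠ y → x.1 + x.2 < y.1 ∨ y.1 + y.2 < x.1) ∧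
  Set.ncard {t : ℕ | ∃ x ∈ I, x.1 ≤ t ∧ t ≤ x.1 + x.2} ≤ 3 * ∑ x ∈ J, (x.2 + 1)

/-- VIT2 -/
def G_VIT2 : Prop := ∀ (α : Type) (L : Lang α) (Sg : ℕ → (ℕ → α) → Prop) (τ N : ℕ) (W : ℕ → α)
    (J : Finset (ℕ × ℕ)), L.P N W →
  (∀ a w w', (∀ k ≤ 2 * a + 1, w k = w' k) → Sg a w → Sg a w') →
  (∀ x ∈ J, τ ≤ x.2 ∧ x.1 + (2 * x.2 + 1) ≤ N ∧ Sg x.2 (sh x.1 W)) →
  (∀ x ∈ J, ∀ y ∈ J, x ≠ y → x.1 + (2 * x.2 + 1) < y.1 ∨ y.1 + (2 * y.2 + 1) < x.1) →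
  Win L.P Sg τ N (∑ x ∈ J, (2 * x.2 + 1)) W

end Pool.Agent.Helper42.DB
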