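import Mathlib

set_option autoImplicit false

/-!
# Dispersing billiard tables and their periodic orbits (MP_48f005_an)

The plane `ℝ²` is `ℂ`.
-/

namespace Pool.Agent.Helper42.DB

open Set Filter Topology

/-- A dispersing (dispersive) billiard table: a bounded connected domain `Y` of the plane whose
boundary is a finite union of `C²` curves of strictly positive curvature which bulge into `Y`.
Each boundary component is either a smooth closed curve (`closed i`, parametrized with period `1`)
or an arc (parametrized by `[0, 1]`, only the restriction of `γ i` to `[0, 1]` matters); the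
components meet only at end points of arcs (corners). Every angle at a corner is allowed, also the
angle `0` (cusp). -/
structure Table where
  /-- the domain -/
  Y : Set ℂ
  isOpen : IsOpen Y
  isConnected : IsConnected Y
  isBounded : Bornology.IsBounded Y
  /-- the boundary components are indexed by a finite type -/
  ι : Type
  finite : Finite ι
  /-- parametrization of the components -/
  γ : ι → ℝ → ℂ
  smooth : ∀ i, ContDiff ℝ 2 (γ i)
  closed : ι → Prop
  periodic : ∀ i, closed i → ∀ t, γ i (t + 1) = γ i t
  /-- the curve is regular and turns to the left, with curvature different from `0` -/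
  curved : ∀ i, ∀ t ∈ Icc (0 : ℝ) 1,
    0 < ((starRingEnd ℂ) (deriv (γ i) t) * deriv (deriv (γ i)) t).im
  boundary : frontier Y = ⋃ i, γ i '' Icc (0 : ℝ) 1
  /-- the components are simple and meet only at end points of arcs -/
  simple : ∀ i j s t, (0 ≤ s ∧ s < 1 ∧ (¬closed i → 0 < s)) → (0 ≤ t ∧ t ≤ 1 ∧ (closed j → t < 1)) →
    γ i s = γ j t → i = j ∧ s = t
  /-- `Y` is on the outer (right) side of the curve, and only there -/
  side : ∀ i s, (0 ≤ s ∧ s < 1 ∧ (¬closed i → 0 < s)) → ∃ ε > 0, ∀ r ∈ Ioo (0 : ℝ) ε,
    γ i s - (r : ℂ) * (Complex.I * deriv (γ i) s) ∈ Y ∧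
    γ i s + (r : ℂ) * (Complex.I * deriv (γ i) s) ∉ Y

namespace Table

variable (T : Table)

/-- The parameters of the regular points of the component `i`: all points of a closed component,
all points of an arc except its end points. -/
def Reg (i : T.ι) : Set ℝ := {s | 0 ≤ s ∧ s < 1 ∧ (¬T.closed i → 0 < s)}

/-- The unit normal vector at a regular boundary point which points into `Y`. -/
noncomputable def normal (i : T.ι) (s : ℝ) : ℂ :=
  -(Complex.I * deriv (T.γ i) s) / (‖deriv (T.γ i) s‖ : ℂ)

/-- Scalar product of the plane. -/
def dot (z w : ℂ) : ℝ := z.re * w.re + z.im * w.im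

/-- The billiard map, as a relation between phase points `(q, v)` (`q` is a boundary point, `v` a
unit vector): from the regular boundary point `x.1` the particle moves in `Y` with the unit
velocity `x.2` until it first hits the boundary, at the regular point `y.1`, and `y.2` is the
velocity after the elastic reflection.
With `graz = False` velocities must be transversal to the boundary at both ends; with
`graz = True` tangential ones are admitted too (a tangential collision does not change the
velocity). -/
def Step (graz : Prop) (x y : ℂ × ℂ) : Prop :=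
  ‖x.2‖ = 1 ∧ ∃ (i j : T.ι) (s t τ : ℝ), s ∈ T.Reg i ∧ t ∈ T.Reg j ∧ 0 < τ ∧
    x.1 = T.γ i s ∧ y.1 = T.γ j t ∧ y.1 = x.1 + (τ : ℂ) * x.2 ∧
    (∀ r ∈ Ioo 0 τ, x.1 + (r : ℂ) * x.2 ∈ T.Y) ∧
    (0 < dot x.2 (T.normal i s) ∨ (graz ∧ dot x.2 (T.normal i s) = 0)) ∧
    (dot x.2 (T.normal j t) < 0 ∨ (graz ∧ dot x.2 (T.normal j t) = 0)) ∧
    y.2 = x.2 - ((2 * dot x.2 (T.normal j t) : ℝ) : ℂ) * T.normal j t

/-- Periodic orbits of the billiard map, as sets of phase points. -/
def PeriodicOrbit (graz : Prop) (O : Set (ℂ × ℂ)) : Prop :=
  ∃ (z : ℕ → ℂ × ℂ) (p : ℕ), 0 < p ∧ (∀ k, T.Step graz (z k) (z (k + 1))) ∧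
    (∀ k, z (k + p) = z k) ∧ O = range z

/-- The number of periodic orbits of period at most `n` (the period of a periodic orbit is its
number of points). -/
noncomputable def f (graz : Prop) (n : ℕ) : ℕ :=
  Set.ncard {O : Set (ℂ × ℂ) | T.PeriodicOrbit graz O ∧ O.ncard ≤ n}

/-- The transversal phase points. -/
def Trans (x : ℂ × ℂ) : Prop :=
  ∃ i, ∃ s ∈ T.Reg i, x.1 = T.γ i s ∧ 0 < dot x.2 (T.normal i s)

/-- The number of periodic orbits with at most `n` transversal collisions, when tangential
collisions are admitted but not counted (a particle which touches the boundary tangentially moves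
on). -/
noncomputable def f0 (n : ℕ) : ℕ :=
  Set.ncard {O : Set (ℂ × ℂ) | T.PeriodicOrbit True O ∧ {x | x ∈ O ∧ T.Trans x}.ncard ≤ n}

end Table

end Pool.Agent.Helper42.DB
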