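import Mathlib
import Pool.Agent.Helper42.DB.Goals2
import Pool.Agent.Helper42.DB.Table

set_option autoImplicit false

/-!
# Dispersing billiards (MP_48f005_an): from tables to systems, statements of packets
-/

namespace Pool.Agent.Helper42.DB

open Set Filter Topology

/-! ## Billiards given by a domain and its regular boundary points -/

/-- The billiard relation of the domain `Y`; `RP` is the set of all pairs (regular boundary point,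
unit normal into `Y`). -/
def BStep (Y : Set ℂ) (RP : Set (ℂ × ℂ)) (graz : Prop) (x y : ℂ × ℂ) : Prop :=
  ‖x.2‖ = 1 ∧ ∃ (N M : ℂ) (τ : ℝ), (x.1, N) ∈ RP ∧ (y.1, M) ∈ RP ∧ 0 < τ ∧
    y.1 = x.1 + (τ : ℂ) * x.2 ∧ (∀ r ∈ Ioo 0 τ, x.1 + (r : ℂ) * x.2 ∈ Y) ∧
    (0 < dt x.2 N ∨ (graz ∧ dt x.2 N = 0)) ∧ (dt x.2 M < 0 ∨ (graz ∧ dt x.2 M = 0)) ∧
    y.2 = x.2 - ((2 * dt x.2 M : ℝ) : ℂ) * M

/-- Periodic orbits. -/
def BOrb (Y : Set ℂ) (RP : Set (ℂ × ℂ)) (graz : Prop) (O : Set (ℂ × ℂ)) : Prop :=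
  ∃ (z : ℕ → ℂ × ℂ) (p : ℕ), 0 < p ∧ (∀ k, BStep Y RP graz (z k) (z (k + 1))) ∧
    (∀ k, z (k + p) = z k) ∧ O = range z

/-- Number of periodic orbits of period at most `n`. -/
noncomputable def bf (Y : Set ℂ) (RP : Set (ℂ × ℂ)) (graz : Prop) (n : ℕ) : ℕ :=
  Set.ncard {O : Set (ℂ × ℂ) | BOrb Y RP graz O ∧ O.ncard ≤ n}

/-- Regular boundary points of a table with their normals. -/
def Table.RP (T : Table) : Set (ℂ × ℂ) :=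
  {x | ∃ i, ∃ s ∈ T.Reg i, x = (T.γ i s, T.normal i s)}

/-- A table whose boundary curves are parametrized by the angle of the normal. -/
structure CTab where
  Y : Set ℂ
  isOpen : IsOpen Y
  bdd : Bornology.IsBounded Y
  ne : Y.Nonempty
  ι : Type
  fin : Fintype ι
  crv : ι → Crv
  A : ι → ℝ
  B : ι → ℝ
  hAB : ∀ i, A i < B i
  r0 : ℝ
  r1 : ℝ
  r0_pos : 0 < r0
  le_R : ∀ i u, r0 ≤ (crv i).R u
  R_le : ∀ i u, (crv i).R u ≤ r1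
  closed : ι → Prop
  per : ∀ i, closed i → (∃ k : ℤ, B i - A i = 2 * Real.pi * k) ∧
    ∀ u, (crv i).G (u + (B i - A i)) = (crv i).G u
  bdry : frontier Y = ⋃ i, (crv i).G '' Icc (A i) (B i)
  simple : ∀ i j u v, (A i ≤ u ∧ u < B i ∧ (¬closed i → A i < u)) →
    (A j ≤ v ∧ v ≤ B j ∧ (closed j → v < B j)) → (crv i).G u = (crv j).G v → i = j ∧ u = v
  side : ∀ i u, (A i ≤ u ∧ u < B i ∧ (¬closed i → A i < u)) → ∃ ε > 0, ∀ r ∈ Ioo (0 : ℝ) ε,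
    (crv i).G u + r • ee u ∈ Y ∧ (crv i).G u - r • ee u ∉ Y

namespace CTab

variable (C : CTab)

/-- The curve of the component `i`. -/
abbrev g (i : C.ι) : ℝ → ℂ := (C.crv i).G

/-- The period of a closed component. -/
def P (i : C.ι) : ℝ := C.B i - C.A i

/-- Regular boundary points with their normals. -/
def RP : Set (ℂ × ℂ) :=
  {x | ∃ i u, (C.A i ≤ u ∧ u < C.B i ∧ (¬C.closed i → C.A i < u)) ∧ x = (C.g i u, ee u)}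

/-- Regular parameters (every real number for a closed component). -/
def Rg (i : C.ι) (u : ℝ) : Prop := C.closed i ∨ (C.A i < u ∧ u < C.B i)

/-- Parameter intervals of small arcs. -/
def Sub (i : C.ι) (a b : ℝ) : Prop := a < b ∧ (¬C.closed i → C.A i ≤ a ∧ b ≤ C.B i)

/-- Two parameter intervals which do not overlap. -/
def Apart (i : C.ι) (a b : ℝ) (j : C.ι) (a' b' : ℝ) : Prop :=
  i ≠ j ∨ (¬C.closed i ∧ (b ≤ a' ∨ b' ≤ a)) ∨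
    (C.closed i ∧ ((b ≤ a' ∧ b' ≤ a + C.P i) ∨ (b' ≤ a ∧ b ≤ a' + C.P i)))

/-- The bounce points of all periodic orbits (tangential collisions admitted). -/
def DD : Set ℂ := {p | ∃ O : Set (ℂ × ℂ), BOrb C.Y C.RP True O ∧ ∃ v, (p, v) ∈ O}

end CTab

/-- REPAR -/
def G_REPAR : Prop := ∀ T : Table, ∃ C : CTab, C.Y = T.Y ∧ C.RP = T.RP

/-- REPAR1: reparametrization of one arc by the normal angle. -/
def G_REPAR1 : Prop := ∀ γ : ℝ → ℂ, ContDiff ℝ 2 γ →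
  (∀ t ∈ Icc (0 : ℝ) 1, 0 < ((starRingEnd ℂ) (deriv γ t) * deriv (deriv γ) t).im) →
  ∃ (c : Crv) (σ : ℝ → ℝ) (r0 r1 : ℝ), 0 < r0 ∧ (∀ u, r0 ≤ c.R u) ∧ (∀ u, c.R u ≤ r1) ∧
    ContinuousOn σ (Icc 0 1) ∧ StrictMonoOn σ (Icc 0 1) ∧ (∀ t ∈ Icc (0 : ℝ) 1,
      deriv γ t ≠ 0 ∧ c.G (σ t) = γ t ∧
      ee (σ t) = -(Complex.I * deriv γ t) / (‖deriv γ t‖ : ℂ))

/-- REPAR2: reparametrization of a closed curve by the normal angle. -/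
def G_REPAR2 : Prop := ∀ γ : ℝ → ℂ, ContDiff ℝ 2 γ → (∀ t, γ (t + 1) = γ t) →
  (∀ t ∈ Icc (0 : ℝ) 1, 0 < ((starRingEnd ℂ) (deriv γ t) * deriv (deriv γ) t).im) →
  ∃ (c : Crv) (σ : ℝ → ℝ) (r0 r1 : ℝ), 0 < r0 ∧ (∀ u, r0 ≤ c.R u) ∧ (∀ u, c.R u ≤ r1) ∧
    Continuous σ ∧ StrictMono σ ∧ (∃ k : ℤ, ∀ t, σ (t + 1) = σ t + 2 * Real.pi * k) ∧
    Function.Surjective σ ∧ (∀ t : ℝ, deriv γ t ≠ 0 ∧ c.G (σ t) = γ t ∧
      ee (σ t) = -(Complex.I * deriv γ t) / (‖deriv γ t‖ : ℂ))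

/-- LSIDE: local structure at a regular boundary point. -/
def G_LSIDE (C : CTab) : Prop := ∀ (i : C.ι) (u0 : ℝ), C.Rg i u0 → ∀ ε : ℝ, 0 < ε → ∃ δ : ℝ,
  0 < δ ∧ ∀ z ∈ Metric.ball (C.g i u0) δ, ∃ v r : ℝ, |v - u0| < ε ∧ |r| < ε ∧
    z = C.g i v + r • ee v ∧ (0 < r → z ∈ C.Y) ∧ (r ≤ 0 → z ∉ C.Y)

/-- R2: two different arcs starting (ending) at the same corner have different normals there. -/
def G_R2 (C : CTab) : Prop := ∀ i j : C.ι, i ≠ j →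
  (C.g i (C.A i) = C.g j (C.A j) → ee (C.A i) ≠ ee (C.A j)) ∧
  (C.g i (C.B i) = C.g j (C.B j) → ee (C.B i) ≠ ee (C.B j))

/-- SEP -/
def G_SEP (C : CTab) : Prop := ∃ μ : ℝ, 0 < μ ∧ ∀ (i j : C.ι) (a b a' b' : ℝ),
  C.Sub i a b → C.Sub j a' b' → C.Apart i a b j a' b' → b - a ≤ μ → b' - a' ≤ μ →
  ∃ η c : ℝ, (∀ u ∈ Ioo a b, dt (ee η) (C.g i u) < c) ∧
    (∀ v ∈ Ioo a' b', c < dt (ee η) (C.g j v)) ∧
    (∀ u ∈ Icc a b, ee u ≠ -ee η) ∧ (∀ v ∈ Icc a' b', ee v ≠ ee η)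

/-- BIG -/
def G_BIG (C : CTab) : Prop := ∃ ρ : ℝ, 0 < ρ ∧ ∀ z ∉ C.Y, ∃ q : ℂ,
  Metric.closedBall q ρ ⊆ connectedComponentIn C.Yᶜ z

/-- SUBD -/
def G_SUBD (C : CTab) : Prop := ∀ (D : Set ℂ) (μ : ℝ), D.Countable → 0 < μ → ∀ i : C.ι,
  ∃ (m : ℕ) (v : ℕ → ℝ), 0 < m ∧ (∀ k < m, v k < v (k + 1) ∧ v (k + 1) - v k ≤ μ) ∧
    (¬C.closed i → v 0 = C.A i ∧ v m = C.B i) ∧ (C.closed i → v m = v 0 + C.P i) ∧
    ∀ k ≤ m, (C.closed i ∨ (0 < k ∧ k < m)) → C.g i (v k) ∉ D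

/-- The system `S` is a refinement of the table `C`, and every regular point of `C` in `D` is in
the relative interior of an arc of `S`. -/
def Refines (C : CTab) (S : Sys) (D : Set ℂ) : Prop :=
  S.Y = C.Y ∧ (∀ x : S.ι, ∀ u ∈ Ioo (S.a x) (S.b x), (S.g x u, ee u) ∈ C.RP) ∧
  ∀ p N : ℂ, (p, N) ∈ C.RP → p ∈ D → ∃ x : S.ι, ∃ u ∈ Ioo (S.a x) (S.b x), S.g x u = p ∧ ee u = N

/-- MKSYS -/
def G_MKSYS (C : CTab) : Prop := ∀ D : Set ℂ, D.Countable → ∃ S : Sys, Refines C S D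

/-- PERFIN -/
def G_PERFIN (C : CTab) : Prop := ∀ n : ℕ,
  {O : Set (ℂ × ℂ) | BOrb C.Y C.RP True O ∧ O.ncard ≤ n}.Finite

variable {S : Sys}

/-- States with tangential velocities admitted. -/
def St.OkG (x : St S) : Prop := x.u ∈ Ioo (S.a x.i) (S.b x.i) ∧ |x.φ| ≤ Real.pi / 2

/-- Flights with tangential velocities admitted at the ends. -/
def FlG (x y : St S) : Prop :=
  x.OkG ∧ y.OkG ∧ ee x.th = -ee y.bk ∧ ∃ t : ℝ, 0 < t ∧ y.pos = x.pos + t • ee x.th ∧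
    ∀ s ∈ Ioo 0 t, x.pos + s • ee x.th ∈ S.Y

/-- Periodic orbits with tangential collisions admitted. -/
def POrbG (S : Sys) (O : Set (St S)) : Prop := ∃ (z : ℕ → St S) (p : ℕ), 0 < p ∧
  (∀ k, FlG (z k) (z (k + 1))) ∧ (∀ k, z (k + p) = z k) ∧ O = range z

/-- Periodic orbits of period at most `n` with a tangential collision. -/
def TanOrb (S : Sys) (n : ℕ) : Set (Set (St S)) :=
  {O | POrbG S O ∧ O.ncard ≤ n ∧ ∃ x ∈ O, |x.φ| = Real.pi / 2}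

/-- ORDG -/
def G_ORDG (S : Sys) : Prop := ∀ x y x' y' : St S, FlG x y → FlG x' y' → x.i = x'.i → y.i = y'.i →
  x.u ≤ x'.u → x.th < x'.th → y'.u < y.u ∧ y'.bk - y.bk = x'.th - x.th

/-- GRU -/
def G_GRU (S : Sys) : Prop := ∀ (q : ℕ) (z z' : ℕ → St S), 0 < q →
  (∀ k < q, FlG (z k) (z (k + 1))) → (∀ k < q, FlG (z' k) (z' (k + 1))) →
  (∀ k ≤ q, (z k).i = (z' k).i) → (z 0).φ = (z' 0).φ → |(z 0).φ| = Real.pi / 2 →
  (z q).φ = (z' q).φ → |(z q).φ| = Real.pi / 2 → z 0 = z' 0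

/-- GRC -/
def G_GRC (S : Sys) : Prop := ∀ n : ℕ, (TanOrb S n).Finite ∧
  (TanOrb S n).ncard ≤ 4 * (Fintype.card S.ι) ^ 2 * (1 + ∑ k ∈ Finset.range (n + 1), AW S k)

/-- TRF -/
def G_TRF : Prop := ∀ (C : CTab) (S : Sys), Refines C S C.DD → ∀ n : ℕ,
  bf C.Y C.RP False n = fS S n

/-- TRG -/
def G_TRG : Prop := ∀ (C : CTab) (S : Sys), Refines C S C.DD → G_PERFIN C → ∀ n : ℕ,
  (TanOrb S n).Finite →
  bf C.Y C.RP False n ≤ bf C.Y C.RP True n ∧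
  bf C.Y C.RP True n ≤ bf C.Y C.RP False n + (TanOrb S n).ncard

/-- MAIN2 -/
def G_MAIN2 (S : Sys) : Prop := ∃ h : ℝ, 0 ≤ h ∧
  Tendsto (fun n : ℕ => Real.log (fS S n) / n) atTop (𝓝 h) ∧
  ∀ ζ : ℝ, 0 < ζ → ∃ K : ℝ, 1 ≤ K ∧ ∀ n : ℕ, (AW S n : ℝ) ≤ K * Real.exp ((h + ζ) * n)

end Pool.Agent.Helper42.DB
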