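import Mathlib
import Pool.Agent.Helper42.DB.Goals3

set_option autoImplicit false

/-!
# Dispersing billiards (MP_48f005_an): tangential collisions which are not counted in the period
-/

namespace Pool.Agent.Helper42.DB

open Set Filter Topology

/-- Transversal phase points. -/
def BTrans (RP : Set (ℂ × ℂ)) (x : ℂ × ℂ) : Prop := ∃ N : ℂ, (x.1, N) ∈ RP ∧ 0 < dt x.2 N

/-- Periodic orbits with a tangential collision and at most `n` transversal ones. -/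
def TanOrb0 (S : Sys) (n : ℕ) : Set (Set (St S)) :=
  {O | POrbG S O ∧ {x : St S | x ∈ O ∧ |x.φ| < Real.pi / 2}.ncard ≤ n ∧
    ∃ x ∈ O, |x.φ| = Real.pi / 2}

/-- GRC0 -/
def G_GRC0 (S : Sys) : Prop := ∀ n : ℕ, (TanOrb0 S n).Finite ∧
  (TanOrb0 S n).ncard ≤ 4 * (Fintype.card S.ι) ^ 2 * (1 + ∑ k ∈ Finset.range (n + 1), AW S k)

/-- TRG0 -/
def G_TRG0 : Prop := ∀ (C : CTab) (S : Sys), Refines C S C.DD → ∀ n : ℕ,
  (TanOrb0 S n).Finite → {O : Set (St S) | POrb S O ∧ O.ncard ≤ n}.Finite →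
  {O : Set (ℂ × ℂ) | BOrb C.Y C.RP True O ∧ {x | x ∈ O ∧ BTrans C.RP x}.ncard ≤ n}.Finite ∧
  bf C.Y C.RP False n ≤
    Set.ncard {O : Set (ℂ × ℂ) | BOrb C.Y C.RP True O ∧ {x | x ∈ O ∧ BTrans C.RP x}.ncard ≤ n} ∧
  Set.ncard {O : Set (ℂ × ℂ) | BOrb C.Y C.RP True O ∧ {x | x ∈ O ∧ BTrans C.RP x}.ncard ≤ n} ≤
    bf C.Y C.RP False n + (TanOrb0 S n).ncard

end Pool.Agent.Helper42.DB
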