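import Mathlib
import Pool.Agent.Helper42.DB.Goals3
import Pool.Agent.Helper49.DB.CRV
import Pool.Agent.Helper29.DB.ARC
import Pool.Agent.Helper31.DB.FLB
import Pool.Agent.Helper6.DB.LIFT
import Pool.Agent.Helper90.DB.ENERGY
import Pool.Agent.Helper8.DB.UNIQ
import Pool.Agent.Helper73.DB.PERU
import Pool.Agent.Helper69.DB.THIN
import Pool.Agent.Helper73.DB.FLEN
import Pool.Agent.Helper6.DB.MINI
import Pool.Agent.Helper87.DB.FOPEN
import Pool.Agent.Helper31.DB.VARSUPP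
import Pool.Agent.Helper65.DB.OPEN
import Pool.Agent.Helper59.DB.LIM
import Pool.Agent.Helper90.DB.FULLPATH
import Pool.Agent.Helper53.DB.CLOSE
import Pool.Agent.Helper74.DB.GOODFULL
import Pool.Agent.Helper73.DB.HMONO
import Pool.Agent.Helper22.DB.LAND
import Pool.Agent.Helper60.DB.FANORD
import Pool.Agent.Helper11.DB.SIDE
import Pool.Agent.Helper56.DB.QOPEN
import Pool.Agent.Helper97.DB.CORE
import Pool.Agent.Helper29.DB.STEP
import Pool.Agent.Helper6.DB.STEPY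
import Pool.Agent.Helper60.DB.FAN
import Pool.Agent.Helper30.DB.INTF
import Pool.Agent.Helper41.DB.EXT
import Pool.Agent.Helper97.DB.CROSS
import Pool.Agent.Helper67.DB.XFAM
import Pool.Agent.Helper87.DB.CONN
import Pool.Agent.Helper24.DB.PAIRS
import Pool.Agent.Helper25.DB.FAMPAIR
import Pool.Agent.Helper26.DB.LINEPAIR
import Pool.Agent.Helper34.DB.CEG
import Pool.Agent.Helper60.DB.CMC
import Pool.Agent.Helper32.DB.CMT
import Pool.Agent.Helper32.DB.CLASS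
import Pool.Agent.Helper58.DB.MTM
import Pool.Agent.Helper85.DB.MCM
import Pool.Agent.Helper66.DB.REVCNT
import Pool.Agent.Helper12.DB.COUNT
import Pool.Agent.Helper52.DB.GLUEA
import Pool.Agent.Helper77.DB.GLUE
import Pool.Agent.Helper52.DB.LOOPLP
import Pool.Agent.Helper66.DB.CATCUP
import Pool.Agent.Helper12.DB.SUBFEK
import Pool.Agent.Helper7.DB.DB
import Pool.Agent.Helper72.DB.VIT1
import Pool.Agent.Helper61.DB.VIT2
import Pool.Agent.Helper32.DB.TYP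
import Pool.Agent.Helper13.DB.DECCNT
import Pool.Agent.Helper38.DB.DECEX
import Pool.Agent.Helper52.DB.PIG
import Pool.Agent.Helper93.DB.UPB
import Pool.Agent.Helper5.DB.LOW

set_option autoImplicit false

/-!
# Dispersing billiards (MP_48f005_an): assembly at the level of systems
-/

namespace Pool.Agent.Helper42.DB

theorem hCRV : G_CRV := PkCRV.thm
theorem hHMONO : G_HMONO := PkHMONO.thm
theorem hSIDE : G_SIDE := PkSIDE.thm hCRV
theorem hQOPEN : G_QOPEN := PkQOPEN.thm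
theorem hPAIRS : G_PAIRS := PkPAIRS.thm
theorem hREVCNT : G_REVCNT := PkREVCNT.thm
theorem hCAT : G_CAT := PkCATCUP.thm.1
theorem hCUP : G_CUP := PkCATCUP.thm.2
theorem hFEK : G_FEK := (PkSUBFEK.thm hCAT).2
theorem hDB : G_DB := PkDB.thm hCAT hCUP
theorem hVIT : G_VIT := (PkVIT2.thm PkVIT1.thm).2
theorem hTYP : G_TYP := PkTYP.thm hCUP hDB hVIT
theorem hPIG : G_PIG := PkPIG.thm hCUP (PkDECCNT.thm hCAT hCUP) PkDECEX.thm

variable (S : Sys)

theorem hARC : G_ARC S := PkARC.thm S hCRV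
theorem hFLB : G_FLB S := PkFLB.thm S (hARC S)
theorem hLIFT : G_LIFT S := PkLIFT.thm S
theorem hFLE : G_FLE S := (PkENERGY.thm S (hARC S)).1
theorem hBNE : G_BNE S := (PkENERGY.thm S (hARC S)).2
theorem hPERU : G_PERU S := PkPERU.thm S (hARC S) (hFLB S) (hFLE S) (hBNE S)
theorem hTHIN : G_THIN S := PkTHIN.thm S (hARC S) (hFLE S) (hBNE S)
theorem hFLEN : G_FLEN S := PkFLEN.thm S (hFLB S)
theorem hMINI : G_MINI S := PkMINI.thm S (hARC S)
theorem hFOPEN : G_FOPEN S := PkFOPEN.thm S (hARC S)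
theorem hVARSUPP : G_VARSUPP S := PkVARSUPP.thm S (hARC S)
theorem hOPEN : G_OPEN S := PkOPEN.thm S (hARC S) (hMINI S) (hVARSUPP S) (hFOPEN S)
theorem hLIM : G_LIM S := PkLIM.thm S (hARC S) (hFLEN S)
theorem hFULLPATH : G_FULLPATH S := PkFULLPATH.thm S (hOPEN S) (hLIM S)
theorem hCLOSE : G_CLOSE S := PkCLOSE.thm S (hARC S) (hFLE S) (hBNE S) (hFLEN S)
theorem hGOODFULL : G_GOODFULL S := PkGOODFULL.thm S (hFULLPATH S) (hCLOSE S)
theorem hLAND : G_LAND S := PkLAND.thm S hCRV hHMONO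
theorem hFANORD : G_FANORD S := PkFANORD.thm S hCRV
theorem hCORE : G_CORE S := PkCORE.thm S (hARC S)
theorem hSTEP : G_STEP S :=
  PkSTEP.thm S (hFLB S) (hLIFT S) (hLAND S) hSIDE hQOPEN (hCORE S)
theorem hSTEPY : G_STEPY S := PkSTEPY.thm S (hLAND S) hSIDE hQOPEN (hCORE S)
theorem hINTF : G_INTF S := PkINTF.thm S (hSTEP S)
theorem hEXT : G_EXT S := PkEXT.thm S (hFLB S) (hLIFT S) (hINTF S)
theorem hCROSS : G_CROSS S := PkCROSS.thm S hCRV (hFLB S) (hLIFT S)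
theorem hFAMPAIR : G_FAMPAIR S := PkFAMPAIR.thm S (hFLB S) hPAIRS
theorem hLINEPAIR : G_LINEPAIR S := PkLINEPAIR.thm S (hFLB S) hPAIRS
theorem hCE : G_CE S := (PkCEG.thm S (hFLB S) (hINTF S) (hFAMPAIR S)).1
theorem hCG : G_CG S := (PkCEG.thm S (hFLB S) (hINTF S) (hFAMPAIR S)).2
theorem hCMT : G_CMT S :=
  PkCMT.thm S (hARC S) (hLIFT S) (hINTF S) (hSTEPY S) (hLINEPAIR S)
theorem hCLASS : G_CLASS S := PkCLASS.thm S
theorem hGLUEA : G_GLUEA S := PkGLUEA.thm S (hARC S)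
theorem hGLUE : G_GLUE S := PkGLUE.thm S (hARC S) (hMINI S) (hGLUEA S)
theorem hLOOPLP : G_LOOPLP S := PkLOOPLP.thm S (hARC S) (hFLEN S) (hTHIN S) (hGOODFULL S)
theorem hUPB : G_UPB S := PkUPB.thm S (hFLB S) (hPERU S)
theorem hLOW : G_LOW S := PkLOW.thm S (hFLB S) (hGLUE S) (hUPB S)

end Pool.Agent.Helper42.DB
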