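import Mathlib
import Pool.Agent.Helper42.DB.Goals4
import Pool.Agent.Helper42.DB.SysMain

set_option autoImplicit false

/-!
# Dispersing billiards (MP_48f005_an): from the packets to the final theorem
-/

namespace Pool.Agent.Helper42.DB

open Set Filter Topology

/-- The final statement. -/
def FinalAll : Prop := ∀ T : Table,
  (∀ n : ℕ, {O : Set (ℂ × ℂ) | T.PeriodicOrbit True O ∧ O.ncard ≤ n}.Finite) ∧
  (∀ n : ℕ, {O : Set (ℂ × ℂ) | T.PeriodicOrbit True O ∧
    {x | x ∈ O ∧ T.Trans x}.ncard ≤ n}.Finite) ∧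
  ∃ h : ℝ, 0 ≤ h ∧
    Tendsto (fun n : ℕ => Real.log (T.f False n) / n) atTop (𝓝 h) ∧
    Tendsto (fun n : ℕ => Real.log (T.f True n) / n) atTop (𝓝 h) ∧
    Tendsto (fun n : ℕ => Real.log (T.f0 n) / n) atTop (𝓝 h)

lemma step_iff (T : Table) (graz : Prop) (x y : ℂ × ℂ) :
    T.Step graz x y ↔ BStep T.Y T.RP graz x y := by
  constructor
  · rintro ⟨h1, i, j, s, t, τ, hs, ht, hτ, hx, hy, hyx, hseg, ha, hb, hr⟩
    exact ⟨h1, T.normal i s, T.normal j t, τ, ⟨i, s, hs, by rw [hx]⟩, ⟨j, t, ht, by rw [hy]⟩, hτ,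
      hyx, hseg, ha, hb, hr⟩
  · rintro ⟨h1, N, M, τ, ⟨i, s, hs, hxN⟩, ⟨j, t, ht, hyM⟩, hτ, hyx, hseg, ha, hb, hr⟩
    rw [Prod.mk.injEq] at hxN hyM
    obtain ⟨hx, rfl⟩ := hxN
    obtain ⟨hy, rfl⟩ := hyM
    exact ⟨h1, i, j, s, t, τ, hs, ht, hτ, hx, hy, hyx, hseg, ha, hb, hr⟩

lemma orb_iff (T : Table) (graz : Prop) (O : Set (ℂ × ℂ)) :
    T.PeriodicOrbit graz O ↔ BOrb T.Y T.RP graz O := by
  unfold Table.PeriodicOrbit BOrb
  simp only [step_iff]

lemma trans_iff (T : Table) (x : ℂ × ℂ) : T.Trans x ↔ BTrans T.RP x := by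
  constructor
  · rintro ⟨i, s, hs, hx, h⟩
    exact ⟨T.normal i s, ⟨i, s, hs, by rw [hx]⟩, h⟩
  · rintro ⟨N, ⟨i, s, hs, hxN⟩, h⟩
    rw [Prod.mk.injEq] at hxN
    obtain ⟨hx, rfl⟩ := hxN
    exact ⟨i, s, hs, hx, h⟩

lemma BOrb.finite {Y : Set ℂ} {RP : Set (ℂ × ℂ)} {graz : Prop} {O : Set (ℂ × ℂ)}
    (h : BOrb Y RP graz O) : O.Finite := by
  obtain ⟨z, p, hp, _, hper, rfl⟩ := h
  have : range z ⊆ z '' (Set.Iio p) := by
    rintro _ ⟨k, rfl⟩
    refine ⟨k % p, Nat.mod_lt _ hp, ?_⟩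
    have hP : Function.Periodic z p := hper
    exact hP.map_mod_nat k
  exact ((Set.finite_Iio p).image z).subset this

lemma DD_countable (C : CTab) (h : G_PERFIN C) : C.DD.Countable := by
  have h1 : C.DD ⊆ ⋃ n : ℕ, ⋃ O ∈ {O : Set (ℂ × ℂ) | BOrb C.Y C.RP True O ∧ O.ncard ≤ n},
      Prod.fst '' O := by
    rintro p ⟨O, hO, v, hv⟩
    refine mem_iUnion.mpr ⟨O.ncard, mem_iUnion₂.mpr ⟨O, ⟨hO, le_rfl⟩, ⟨(p, v), hv, rfl⟩⟩⟩
  refine Set.Countable.mono h1 (countable_iUnion fun n => ?_)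
  refine (h n).countable.biUnion fun O hO => ?_
  exact (hO.1.finite.image _).countable

lemma log_mono {a b : ℕ} (h : a ≤ b) : Real.log a ≤ Real.log b := by
  rcases Nat.eq_zero_or_pos a with rfl | ha
  · simp only [Nat.cast_zero, Real.log_zero]
    exact Real.log_natCast_nonneg b
  · exact Real.log_le_log (by exact_mod_cast ha) (by exact_mod_cast h)

lemma squeeze {a b A : ℕ → ℕ} {D : ℕ} {h : ℝ} (h0 : 0 ≤ h)
    (ha : Tendsto (fun n : ℕ => Real.log (a n) / n) atTop (𝓝 h))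
    (hA : ∀ ζ : ℝ, 0 < ζ → ∃ K : ℝ, 1 ≤ K ∧ ∀ n : ℕ, (A n : ℝ) ≤ K * Real.exp ((h + ζ) * n))
    (hab : ∀ n, a n ≤ b n) (hba : ∀ n, b n ≤ a n + D * (1 + ∑ k ∈ Finset.range (n + 1), A k)) :
    Tendsto (fun n : ℕ => Real.log (b n) / n) atTop (𝓝 h) := by
  rw [Metric.tendsto_atTop] at ha ⊢
  intro ε hε
  obtain ⟨K, hK1, hK⟩ := hA (ε / 4) (by positivity)
  obtain ⟨N1, hN1⟩ := ha (ε / 4) (by positivity)
  -- the polynomial factor
  have hpoly : Tendsto (fun n : ℕ => Real.log (1 + D * (1 + (n + 1) * K)) / n) atTop (𝓝 0) := by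
    have h1 : Tendsto (fun n : ℕ => (1 + (D : ℝ) * (1 + ((n : ℝ) + 1) * K)) / (n : ℝ) ^ 2) atTop
        (𝓝 0) := by
      have e1 : Tendsto (fun n : ℕ => (1 : ℝ) / (n : ℝ)) atTop (𝓝 0) :=
        tendsto_one_div_atTop_nhds_zero_nat
      have e2 : Tendsto (fun n : ℕ => (1 + (D : ℝ) * (1 + K)) * (1 / (n : ℝ)) * (1 / (n : ℝ)) +
          (D : ℝ) * K * (1 / (n : ℝ))) atTop (𝓝 ((1 + (D : ℝ) * (1 + K)) * 0 * 0 + D * K * 0)) :=
        ((e1.const_mul _).mul e1).add (e1.const_mul _)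
      simp only [mul_zero, add_zero] at e2
      refine e2.congr' ?_
      filter_upwards [eventually_gt_atTop 0] with n hn
      have : (n : ℝ) ≠ 0 := by exact_mod_cast hn.ne'
      field_simp
      ring
    have h2 : Tendsto (fun n : ℕ => 2 * Real.log n / n) atTop (𝓝 0) := by
      have := (Real.isLittleO_log_id_atTop.tendsto_div_nhds_zero).comp
        (tendsto_natCast_atTop_atTop (R := ℝ))
      have h3 := this.const_mul 2
      simp only [mul_zero] at h3
      refine h3.congr fun n => ?_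
      simp only [Function.comp, id]
      ring
    have h4 : ∀ᶠ n : ℕ in atTop, Real.log (1 + D * (1 + (n + 1) * K)) / n ≤
        2 * Real.log n / n := by
      filter_upwards [h1.eventually (gt_mem_nhds one_pos), eventually_gt_atTop 0] with n hn hn0
      have hn0' : (0 : ℝ) < n := by exact_mod_cast hn0
      rw [div_lt_one (by positivity)] at hn
      have : Real.log (1 + D * (1 + (n + 1) * K)) ≤ 2 * Real.log n := by
        rw [← Real.log_rpow hn0']
        refine Real.log_le_log (by positivity) ?_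
        rw [Real.rpow_two]
        exact hn.le
      gcongr
    refine squeeze_zero' (Eventually.of_forall fun n => ?_) h4 h2
    refine div_nonneg (Real.log_nonneg ?_) (Nat.cast_nonneg _)
    have : (0 : ℝ) ≤ D * (1 + (n + 1) * K) := by positivity
    linarith
  obtain ⟨N2, hN2⟩ := Metric.tendsto_atTop.mp hpoly (ε / 4) (by positivity)
  refine ⟨max (max N1 N2) 1, fun n hn => ?_⟩
  have hn1 : N1 ≤ n := (le_max_left _ _).trans ((le_max_left _ _).trans hn)
  have hn2 : N2 ≤ n := (le_max_right _ _).trans ((le_max_left _ _).trans hn)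
  have hnp : 0 < n := lt_of_lt_of_le one_pos ((le_max_right _ _).trans hn)
  have hnr : (0 : ℝ) < n := by exact_mod_cast hnp
  have e1 := hN1 n hn1
  have e2 := hN2 n hn2
  rw [Real.dist_eq] at e1 e2 ⊢
  have e1' := abs_lt.mp e1
  have hlow : Real.log (a n) / n ≤ Real.log (b n) / n :=
    div_le_div_of_nonneg_right (log_mono (hab n)) hnr.le
  have hc : 0 ≤ h + ε / 4 := by linarith
  have hE1 : (1 : ℝ) ≤ Real.exp ((h + ε / 4) * n) := Real.one_le_exp (by positivity)
  have hlog : Real.log (a n) < (h + ε / 4) * n := by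
    have h1 : Real.log (a n) / n < h + ε / 4 := by linarith [e1'.2]
    exact (div_lt_iff₀ hnr).mp h1
  have hae : (a n : ℝ) ≤ Real.exp ((h + ε / 4) * n) := by
    rcases Nat.eq_zero_or_pos (a n) with h1 | h1
    · rw [h1, Nat.cast_zero]; exact (Real.exp_pos _).le
    · rw [← Real.log_le_iff_le_exp (by exact_mod_cast h1)]; exact hlog.le
  have hsum : ((∑ k ∈ Finset.range (n + 1), A k : ℕ) : ℝ) ≤
      (n + 1) * (K * Real.exp ((h + ε / 4) * n)) := by
    push_cast
    calc (∑ k ∈ Finset.range (n + 1), (A k : ℝ))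
        ≤ ∑ _k ∈ Finset.range (n + 1), K * Real.exp ((h + ε / 4) * n) := by
          refine Finset.sum_le_sum fun k hk => (hK k).trans ?_
          have hkn : (k : ℝ) ≤ n := by
            exact_mod_cast Nat.lt_succ_iff.mp (Finset.mem_range.mp hk)
          gcongr
      _ = (n + 1) * (K * Real.exp ((h + ε / 4) * n)) := by
          rw [Finset.sum_const, Finset.card_range, nsmul_eq_mul]; push_cast; ring
  have hbn : (b n : ℝ) ≤ Real.exp ((h + ε / 4) * n) * (1 + D * (1 + (n + 1) * K)) := by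
    have h1 : (b n : ℝ) ≤ a n + D * (1 + ((∑ k ∈ Finset.range (n + 1), A k : ℕ) : ℝ)) := by
      exact_mod_cast hba n
    have h2 : (D : ℝ) * (1 + ((∑ k ∈ Finset.range (n + 1), A k : ℕ) : ℝ)) ≤
        D * (Real.exp ((h + ε / 4) * n) + (n + 1) * (K * Real.exp ((h + ε / 4) * n))) := by
      gcongr
    calc (b n : ℝ) ≤ _ := h1
      _ ≤ Real.exp ((h + ε / 4) * n) +
          D * (Real.exp ((h + ε / 4) * n) + (n + 1) * (K * Real.exp ((h + ε / 4) * n))) :=
          add_le_add hae h2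
      _ = _ := by ring
  have hup : Real.log (b n) / n ≤ h + ε / 4 + Real.log (1 + D * (1 + (n + 1) * K)) / n := by
    have hq : (0 : ℝ) < 1 + D * (1 + (n + 1) * K) := by positivity
    have h1 : Real.log (b n) ≤ (h + ε / 4) * n + Real.log (1 + D * (1 + (n + 1) * K)) := by
      rcases Nat.eq_zero_or_pos (b n) with h1 | h1
      · rw [h1, Nat.cast_zero, Real.log_zero]
        have h2 : 0 ≤ Real.log (1 + D * (1 + (n + 1) * K)) := by
          refine Real.log_nonneg ?_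
          have : (0 : ℝ) ≤ D * (1 + (n + 1) * K) := by positivity
          linarith
        positivity
      · refine (Real.log_le_log (by exact_mod_cast h1) hbn).trans ?_
        rw [Real.log_mul (Real.exp_pos _).ne' hq.ne', Real.log_exp]
    calc Real.log (b n) / n ≤ ((h + ε / 4) * n + Real.log (1 + D * (1 + (n + 1) * K))) / n :=
          div_le_div_of_nonneg_right h1 hnr.le
      _ = _ := by field_simp
  have e2' := (abs_lt.mp e2).2
  rw [sub_zero] at e2'
  rw [abs_lt]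
  constructor
  · linarith [e1'.1]
  · linarith

theorem final_of (hREPAR : G_REPAR) (hPERFIN : ∀ C, G_PERFIN C) (hMKSYS : ∀ C, G_MKSYS C)
    (hMAIN2 : ∀ S, G_MAIN2 S) (hTRF : G_TRF) (hTRG : G_TRG) (hTRG0 : G_TRG0)
    (hGRC : ∀ S, G_GRC S) (hGRC0 : ∀ S, G_GRC0 S) : FinalAll := by
  intro T
  obtain ⟨C, hY, hRP⟩ := hREPAR T
  obtain ⟨S, hS⟩ := hMKSYS C C.DD (DD_countable C (hPERFIN C))
  obtain ⟨h, h0, hlim, hA⟩ := hMAIN2 S
  have eorb : ∀ graz O, T.PeriodicOrbit graz O ↔ BOrb C.Y C.RP graz O := by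
    intro graz O
    rw [orb_iff, hY, hRP]
  have etr : ∀ x, T.Trans x ↔ BTrans C.RP x := by
    intro x
    rw [trans_iff, hRP]
  have ef : ∀ graz n, T.f graz n = bf C.Y C.RP graz n := by
    intro graz n
    unfold Table.f bf
    simp only [eorb]
  have ef0 : ∀ n, T.f0 n = Set.ncard {O : Set (ℂ × ℂ) | BOrb C.Y C.RP True O ∧
      {x | x ∈ O ∧ BTrans C.RP x}.ncard ≤ n} := by
    intro n
    unfold Table.f0
    simp only [eorb, etr]
  have hF := fun n => hTRF C S hS n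
  have hG := fun n => hTRG C S hS (hPERFIN C) n (hGRC S n).1
  have hG0 := fun n => hTRG0 C S hS n (hGRC0 S n).1 (hUPB S n).1
  refine ⟨fun n => ?_, fun n => ?_, h, h0, ?_, ?_, ?_⟩
  · simp only [eorb]
    exact hPERFIN C n
  · simp only [eorb, etr]
    exact (hG0 n).1
  · simp only [ef, hF]
    exact hlim
  · refine squeeze (a := fun n => fS S n) (b := fun n => T.f True n) (A := AW S)
      (D := 4 * (Fintype.card S.ι) ^ 2) h0 hlim hA (fun n => ?_) (fun n => ?_)
    · rw [ef, ← hF]; exact (hG n).1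
    · rw [ef, ← hF]; exact (hG n).2.trans (Nat.add_le_add_left (hGRC S n).2 _)
  · refine squeeze (a := fun n => fS S n) (b := fun n => T.f0 n) (A := AW S)
      (D := 4 * (Fintype.card S.ι) ^ 2) h0 hlim hA (fun n => ?_) (fun n => ?_)
    · rw [ef0, ← hF]; exact (hG0 n).2.1
    · rw [ef0, ← hF]; exact (hG0 n).2.2.trans (Nat.add_le_add_left (hGRC0 S n).2 _)

end Pool.Agent.Helper42.DB
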