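import Mathlib
import Pool.Agent.Helper42.DB.Assemble
import Pool.Agent.Helper49.DB.FANLAND
import Pool.Agent.Helper33.DB.MAIN2
import Pool.Agent.Helper8.DB.REPAR1
import Pool.Agent.Helper27.DB.REPAR2
import Pool.Agent.Helper31.DB.REPAR
import Pool.Agent.Helper5.DB.LSIDE
import Pool.Agent.Helper26.DB.R2
import Pool.Agent.Helper67.DB.SEP
import Pool.Agent.Helper6.DB.BIG
import Pool.Agent.Helper69.DB.SUBD
import Pool.Agent.Helper53.DB.MKSYS
import Pool.Agent.Helper85.DB.PERFIN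
import Pool.Agent.Helper90.DB.ORDG
import Pool.Agent.Helper87.DB.GRU
import Pool.Agent.Helper65.DB.GRC
import Pool.Agent.Helper78.DB.TRF
import Pool.Agent.Helper11.DB.TRG
import Pool.Agent.Helper30.DB.GRC0
import Pool.Agent.Helper3.DB.TRG0

set_option autoImplicit false

/-!
# Dispersing billiards (MP_48f005_an): all packets together
-/

namespace Pool.Agent.Helper42.DB

open Set Filter Topology

section system

variable (S : Sys)

theorem hFANLAND : G_FANLAND S := PkFANLAND.thm S hCRV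
theorem hFAN : G_FAN S := PkFAN.thm S (hFANLAND S) hSIDE hQOPEN (hCORE S)
theorem hXFAM : G_XFAM S := PkXFAM.thm S (hFLB S) (hLIFT S) (hFAN S) (hINTF S)
theorem hCONN : G_CONN S := PkCONN.thm S (hFLB S) (hLIFT S) (hEXT S) (hCROSS S) (hXFAM S)
theorem hCMC : G_CMC S := PkCMC.thm S (hINTF S) (hFANORD S) (hFAN S) (hLINEPAIR S)
theorem hMTM : G_MTM S := PkMTM.thm S hCRV (hCONN S)
theorem hMCM : G_MCM S := PkMCM.thm S (hCONN S)
theorem hCOUNT : G_COUNT S :=
  PkCOUNT.thm S (hCONN S) hREVCNT (hCE S) (hCG S) (hCMC S) (hCMT S) (hCLASS S) (hMTM S) (hMCM S)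
theorem hMAIN2 : G_MAIN2 S :=
  PkMAIN2.thm S (hARC S) (hFLB S) hCUP hFEK hTYP hPIG (hCOUNT S) (hLOOPLP S) (hUPB S) (hLOW S)
theorem hGRU : G_GRU S := PkGRU.thm S (PkORDG.thm S hCRV hHMONO)
theorem hGRC : G_GRC S := PkGRC.thm S (hGRU S)

end system

section table

variable (C : CTab)

theorem hLSIDE : G_LSIDE C := PkLSIDE.thm C
theorem hR2 : G_R2 C := PkR2.thm C hCRV (hLSIDE C)
theorem hSEP : G_SEP C := PkSEP.thm C (hR2 C)
theorem hBIG : G_BIG C := PkBIG.thm C hCRV (hLSIDE C)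
theorem hMKSYS : G_MKSYS C := PkMKSYS.thm C (hLSIDE C) (hSEP C) (hBIG C) (PkSUBD.thm C)

end table

theorem hREPAR : G_REPAR := PkREPAR.thm PkREPAR1.thm PkREPAR2.thm

theorem final : FinalAll :=
  final_of hREPAR PkPERFIN.thm hMKSYS hMAIN2 PkTRF.thm PkTRG.thm PkTRG0.thm hGRC
    (fun S => PkGRC0.thm S (hGRU S))

end Pool.Agent.Helper42.DB
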